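import Pool.Agent.AbAlg.Ind

/-!
# The product of an arbitrary motive with curves
-/

set_option autoImplicit false
set_option linter.unusedSectionVars false

open CategoryTheory MonoidalCategory Limits
open Pool.Agent.Helper15.Murre Pool.Agent.Helper15.ABC

universe t w v u

namespace Pool.Agent.AbAlg

variable {C : Type u} [Category.{v} C] [Preadditive C] [Linear ℚ C]
  [MonoidalCategory C] [SymmetricCategory C] [MonoidalPreadditive C] [MonoidalLinear ℚ C]
  [RigidCategory C] [HasBinaryBiproducts C] {F : Type w} [Field F] {W : MotivicHomology C F}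

/-- a component of a product decomposition -/
private theorem tensor_comp {M N P : C} (D : CK W M) (E : CK W N) (r : N ⟶ P) (k : ℤ)
    (h : ∀ b, E.p b ≫ r = if b = k then r else 0) (n : ℤ) :
    (D.tensor E).p n ≫ (M ◁ r) = (M ◁ r) ≫ (D.p (n - k) ▷ P) := by
  rw [CK.tensor_p, Preadditive.sum_comp]
  have h1 : ∀ a, (D.p a ⊗ₘ E.p (n - a)) ≫ (M ◁ r) =
      if a = n - k then (M ◁ r) ≫ (D.p a ▷ P) else 0 := by
    intro a
    rw [← id_tensorHom, tensorHom_comp_tensorHom, Category.comp_id, h]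
    by_cases ha : a = n - k
    · rw [if_pos (by omega), if_pos ha, ← tensorHom_id, tensorHom_comp_tensorHom,
        Category.id_comp, Category.comp_id]
    · rw [if_neg (by omega), if_neg ha, MonoidalPreadditive.tensor_zero]
  rw [Finset.sum_congr rfl (fun a _ => h1 a)]
  by_cases hk : n - k ∈ D.s
  · rw [Finset.sum_eq_single_of_mem _ hk (fun b _ hb => if_neg hb), if_pos rfl]
  · rw [D.p_eq_zero hk, MonoidalPreadditive.zero_whiskerRight, comp_zero]
    apply Finset.sum_eq_zero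
    intro a ha
    rw [if_neg]
    rintro rfl
    exact hk ha

private theorem single_p' (N : C) (i j : ℤ) (h : ∀ x : W.H.obj N, x ∈ W.gr N i) :
    (CK.single N i h).p j = if j = i then 𝟙 N else 0 := rfl

private theorem tate_p' (j : ℤ) : (CK.tate W 1).p j = if j = 2 then 𝟙 _ else 0 := by
  change (if j = 2 * 1 then 𝟙 _ else 0) = _
  norm_num

/-- the Chow-Kunneth decomposition `h(X) = 1 ⊕ h₁(X) ⊕ 1(1)` of a curve -/
private noncomputable def ck (G : Curves.{t} W) (X : G.Curve) : CK W (full W (G.h X)) :=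
  ((CK.single (𝟙_ C) 0 W.unit_mem).biprod
    (CK.single (G.h X) 1 (fun x => by rw [G.odd]; trivial))).biprod (CK.tate W 1)

variable (W) in
private noncomputable def i0 (h : C) : 𝟙_ C ⟶ full W h :=
  biprod.inl ≫ (biprod.inl : 𝟙_ C ⊞ h ⟶ (𝟙_ C ⊞ h) ⊞ W.T 1)

variable (W) in
private noncomputable def i1 (h : C) : h ⟶ full W h :=
  biprod.inr ≫ (biprod.inl : 𝟙_ C ⊞ h ⟶ (𝟙_ C ⊞ h) ⊞ W.T 1)

variable (W) in
private noncomputable def i2 (h : C) : W.T 1 ⟶ full W h :=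
  (biprod.inr : W.T 1 ⟶ (𝟙_ C ⊞ h) ⊞ W.T 1)

private theorem map_r0 {A B D : C} (a : A ⟶ A) (b : B ⟶ B) (d : D ⟶ D) :
    biprod.map (biprod.map a b) d ≫ (biprod.fst : (A ⊞ B) ⊞ D ⟶ A ⊞ B) ≫ biprod.fst =
      ((biprod.fst : (A ⊞ B) ⊞ D ⟶ A ⊞ B) ≫ biprod.fst) ≫ a := by simp

private theorem map_r1 {A B D : C} (a : A ⟶ A) (b : B ⟶ B) (d : D ⟶ D) :
    biprod.map (biprod.map a b) d ≫ (biprod.fst : (A ⊞ B) ⊞ D ⟶ A ⊞ B) ≫ biprod.snd =
      ((biprod.fst : (A ⊞ B) ⊞ D ⟶ A ⊞ B) ≫ biprod.snd) ≫ b := by simp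

private theorem map_r2 {A B D : C} (a : A ⟶ A) (b : B ⟶ B) (d : D ⟶ D) :
    biprod.map (biprod.map a b) d ≫ (biprod.snd : (A ⊞ B) ⊞ D ⟶ D) =
      (biprod.snd : (A ⊞ B) ⊞ D ⟶ D) ≫ d := by simp

private theorem ite_comp {A B : C} (r : A ⟶ B) (P : Prop) [Decidable P] :
    r ≫ (if P then 𝟙 B else 0) = if P then r else 0 := by
  split_ifs <;> simp

private theorem ck_r0 (G : Curves.{t} W) (X : G.Curve) (b : ℤ) :
    (ck G X).p b ≫ toUnit W (G.h X) = if b = 0 then toUnit W (G.h X) else 0 :=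
  (map_r0 ((CK.single (𝟙_ C) 0 W.unit_mem).p b)
    ((CK.single (G.h X) 1 (fun x => by rw [G.odd]; trivial)).p b) ((CK.tate W 1).p b)).trans
    (ite_comp (toUnit W (G.h X)) _)

private theorem ck_r1 (G : Curves.{t} W) (X : G.Curve) (b : ℤ) :
    (ck G X).p b ≫ toOne W (G.h X) = if b = 1 then toOne W (G.h X) else 0 :=
  (map_r1 ((CK.single (𝟙_ C) 0 W.unit_mem).p b)
    ((CK.single (G.h X) 1 (fun x => by rw [G.odd]; trivial)).p b) ((CK.tate W 1).p b)).trans
    (ite_comp (toOne W (G.h X)) _)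

private theorem ck_r2 (G : Curves.{t} W) (X : G.Curve) (b : ℤ) :
    (ck G X).p b ≫ toTate W (G.h X) = if b = 2 then toTate W (G.h X) else 0 := by
  refine (map_r2 ((CK.single (𝟙_ C) 0 W.unit_mem).p b)
    ((CK.single (G.h X) 1 (fun x => by rw [G.odd]; trivial)).p b) ((CK.tate W 1).p b)).trans ?_
  rw [tate_p']
  exact ite_comp (toTate W (G.h X)) _

private theorem in0 {A B D : C} : (biprod.inl ≫ (biprod.inl : A ⊞ B ⟶ (A ⊞ B) ⊞ D)) ≫
    (biprod.fst : (A ⊞ B) ⊞ D ⟶ A ⊞ B) ≫ biprod.fst = 𝟙 A := by simp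

private theorem in1 {A B D : C} : (biprod.inr ≫ (biprod.inl : A ⊞ B ⟶ (A ⊞ B) ⊞ D)) ≫
    (biprod.fst : (A ⊞ B) ⊞ D ⟶ A ⊞ B) ≫ biprod.snd = 𝟙 B := by simp

private theorem ir0 (h : C) : i0 W h ≫ toUnit W h = 𝟙 _ := in0

private theorem ir1 (h : C) : i1 W h ≫ toOne W h = 𝟙 _ := in1

private theorem total3 {A B D : C} : 𝟙 ((A ⊞ B) ⊞ D) =
    ((biprod.fst : (A ⊞ B) ⊞ D ⟶ A ⊞ B) ≫ biprod.fst) ≫ biprod.inl ≫ biprod.inl +
      ((biprod.fst : (A ⊞ B) ⊞ D ⟶ A ⊞ B) ≫ biprod.snd) ≫ biprod.inr ≫ biprod.inl +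
      (biprod.snd : (A ⊞ B) ⊞ D ⟶ D) ≫ biprod.inr := by
  have h5 : ((biprod.fst ≫ biprod.fst) ≫ biprod.inl ≫ biprod.inl +
    (biprod.fst ≫ biprod.snd) ≫ biprod.inr ≫ biprod.inl : (A ⊞ B) ⊞ D ⟶ (A ⊞ B) ⊞ D) =
      biprod.fst ≫ ((biprod.fst ≫ biprod.inl + biprod.snd ≫ biprod.inr) ≫
        biprod.inl) := by
    simp only [Category.assoc, Preadditive.comp_add, Preadditive.add_comp]
  rw [h5, biprod.total, Category.id_comp, biprod.total]

private theorem full_total (h : C) :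
    𝟙 (full W h) = toUnit W h ≫ i0 W h + toOne W h ≫ i1 W h + toTate W h ≫ i2 W h := total3

private lemma ext_full' {M Q : C} (h : C) (α : Q ⟶ M ⊗ full W h)
    (h1 : α ≫ M ◁ toUnit W h = 0) (h2 : α ≫ M ◁ toOne W h = 0)
    (h3 : α ≫ M ◁ toTate W h = 0) : α = 0 := by
  have h6 : α = α ≫ M ◁ (𝟙 (full W h)) := by simp
  rw [h6, full_total, MonoidalPreadditive.whiskerLeft_add, MonoidalPreadditive.whiskerLeft_add,
    MonoidalCategory.whiskerLeft_comp _ (toUnit W h), MonoidalCategory.whiskerLeft_comp _ (toOne W h),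
    MonoidalCategory.whiskerLeft_comp _ (toTate W h), Preadditive.comp_add, Preadditive.comp_add,
    reassoc_of% h1, reassoc_of% h2, reassoc_of% h3]
  simp

/-- a class in the image of a split idempotent -/
private theorem split_zero {M P Q A : C} (p : M ⟶ M) (f : P ⟶ M) (e : M ⟶ P) (hef : e ≫ f = p)
    (hz : ∀ β : A ⟶ P ⊗ Q, β = 0) (α : A ⟶ M ⊗ Q) : α ≫ (p ▷ Q) = 0 := by
  rw [← hef, comp_whiskerRight, ← Category.assoc, hz (α ≫ e ▷ Q), zero_comp]

private theorem zero_split {M P Q A : C} (p : M ⟶ M) (f : P ⟶ M) (e : M ⟶ P) (hfe : f ≫ e = 𝟙 P)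
    (hef : e ≫ f = p) (hz : ∀ α : A ⟶ M ⊗ Q, α ≫ (p ▷ Q) = 0) (β : A ⟶ P ⊗ Q) : β = 0 := by
  have h1 := hz (β ≫ f ▷ Q)
  rw [← hef, Category.assoc, ← comp_whiskerRight, reassoc_of% hfe] at h1
  have h2 := congrArg (· ≫ (e ▷ Q)) h1
  simp only [Category.assoc, zero_comp] at h2
  rwa [← comp_whiskerRight, hfe, id_whiskerRight, Category.comp_id] at h2

variable [IsIdempotentComplete C]

/-- the product decomposition exists -/
private theorem exists_product (G : Curves.{t} W) {M : C} (D : CK W M) (X : G.Curve) :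
    ∃ E : CK W (M ⊗ full W (G.h X)), G.IsProduct D X E :=
  ⟨D.tensor (ck G X), fun n => by rw [tensor_comp D (ck G X) _ 0 (ck_r0 G X), sub_zero],
    tensor_comp D (ck G X) _ 1 (ck_r1 G X), tensor_comp D (ck G X) _ 2 (ck_r2 G X)⟩

/-- (B) for the product decomposition of `M × X` -/
private theorem murreB_prod_iff (G : Curves.{t} W) {M : C} (D : CK W M) (X : G.Curve)
    (E : CK W (M ⊗ full W (G.h X))) (hE : G.IsProduct D X E) :
    E.MurreB ↔ D.MurreB ∧
      ∀ l i : ℤ, i + 1 < 2 * l → ∀ α : W.CH l (M ⊗ G.h X), α ≫ (D.p i ▷ G.h X) = 0 := by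
  have t0 : ∀ n, E.p n ≫ (M ◁ toUnit W (G.h X)) =
      (M ◁ toUnit W (G.h X)) ≫ (D.p (n - 0) ▷ 𝟙_ C) := fun n => by rw [sub_zero]; exact hE.unit n
  have t1 := hE.one
  have t2 := hE.tate
  have ex : ∀ {P : C} (i : P ⟶ full W (G.h X)) (r : full W (G.h X) ⟶ P) (_ : i ≫ r = 𝟙 P) (k : ℤ)
      (_ : ∀ n, E.p n ≫ (M ◁ r) = (M ◁ r) ≫ (D.p (n - k) ▷ P)) (_ : E.MurreB) (l n : ℤ)
      (_ : n < 2 * l) (α : W.CH l (M ⊗ P)), α ≫ (D.p (n - k) ▷ P) = 0 := by
    intro P i r hir k ht hB l n hn α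
    rw [CK.MurreB_iff] at hB
    have h1 := hB l n hn (α ≫ (M ◁ i))
    have h2 := congrArg (· ≫ (M ◁ r)) h1
    simp only [Category.assoc, zero_comp] at h2
    rw [ht, ← MonoidalCategory.whiskerLeft_comp_assoc, hir, MonoidalCategory.whiskerLeft_id,
      Category.id_comp] at h2
    exact h2
  constructor
  · intro hB
    refine ⟨?_, ?_⟩
    · rw [CK.MurreB_iff]
      intro l i hi α
      have h1 := ex (i0 W (G.h X)) _ (ir0 _) 0 t0 hB l i hi (α ≫ (ρ_ M).inv)
      rw [sub_zero] at h1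
      have h2 := congrArg (· ≫ (ρ_ M).hom) h1
      simpa using h2
    · intro l i hi α
      have h1 := ex (i1 W (G.h X)) _ (ir1 _) 1 t1 hB l (i + 1) hi α
      rwa [add_sub_cancel_right] at h1
  · rintro ⟨hB, h⟩
    rw [CK.MurreB_iff] at hB ⊢
    intro l n hn α
    refine ext_full' (M := M) (G.h X) (α ≫ E.p n) ?_ ?_ ?_
    · rw [Category.assoc, t0, ← Category.assoc]
      have h1 : ∀ β : W.CH l (M ⊗ 𝟙_ C), β ≫ (D.p (n - 0) ▷ 𝟙_ C) = 0 := by
        intro β
        have h2 := hB l (n - 0) (by omega) (β ≫ (ρ_ M).hom)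
        have h3 := congrArg (· ≫ (ρ_ M).inv) h2
        simpa using h3
      exact h1 _
    · rw [Category.assoc, t1, ← Category.assoc]
      exact h l (n - 1) (by omega) _
    · rw [Category.assoc, t2, ← Category.assoc]
      obtain ⟨P, f, e, hfe, hef, -⟩ := D.split (n - 2)
      refine split_zero (D.p (n - 2)) f e hef (fun β => ?_) _
      refine (topFam W).van_twist (fun γ _ => ?_) β trivial
      have h2 := hB (l - 1) (n - 2) (by omega) (γ ≫ f)
      rw [← hef, Category.assoc, reassoc_of% hfe] at h2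
      have h3 := congrArg (· ≫ e) h2
      simpa [hfe] using h3

/-- `D.p i` kills the classes in `Z` iff the classes in `Z` of the image of `D.p i` are zero -/
private theorem fam_split (Z : Fam W) {M P : C} (p : M ⟶ M) (f : P ⟶ M) (e : M ⟶ P)
    (hfe : f ≫ e = 𝟙 P) (hef : e ≫ f = p) (l : ℤ) :
    (∀ α ∈ Z.Z l M, α ≫ p = 0) ↔ ∀ β ∈ Z.Z l P, β = 0 := by
  constructor
  · intro h β hβ
    have h1 := h _ (Z.comp β f hβ)
    rw [← hef, Category.assoc, reassoc_of% hfe] at h1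
    have h2 := congrArg (· ≫ e) h1
    simpa [hfe] using h2
  · intro h α hα
    rw [← hef, ← Category.assoc, h _ (Z.comp α e hα), zero_comp]

/-- Let `M` be a motive with a Chow-Kunneth decomposition. The product decompositions of
`M × X` satisfy (B), for all curves `X`, if and only if the decomposition of `M` satisfies (B), and
(D) for algebraically trivial cycles. -/
theorem prod_iff (G : Curves.{t} W) {M : C} (D : CK W M) :
    (∀ (X : G.Curve) (E : CK W (M ⊗ full W (G.h X))), G.IsProduct D X E → E.MurreB) ↔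
      D.MurreB ∧ ∀ l, D.CH l (2 * l) ⊓ G.Alg l M = ⊥ := by
  have hD : (∀ l, D.CH l (2 * l) ⊓ G.Alg l M = ⊥) ↔
      ∀ l, ∀ α ∈ G.Alg l M, α ≫ D.p (2 * l) = 0 := by
    constructor
    · intro h l α hα
      have h1 : α ≫ D.p (2 * l) ∈ D.CH l (2 * l) ⊓ G.Alg l M :=
        ⟨⟨α, rfl⟩, alg_comp G α _ hα⟩
      rw [h] at h1
      simpa using h1
    · intro h l
      rw [eq_bot_iff]
      rintro α ⟨⟨β, hβ⟩, hα⟩
      have h1 : β ≫ D.p (2 * l) = α := hβ
      have h2 : α ≫ D.p (2 * l) = α := by rw [← h1, Category.assoc, D.idem]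
      have h3 := h l α hα
      rw [h2] at h3
      simp [h3]
  rw [hD]
  have hX : (∀ (X : G.Curve) (E : CK W (M ⊗ full W (G.h X))), G.IsProduct D X E → E.MurreB) ↔
      D.MurreB ∧ ∀ (X : G.Curve) (l i : ℤ), i + 1 < 2 * l →
        ∀ α : W.CH l (M ⊗ G.h X), α ≫ (D.p i ▷ G.h X) = 0 := by
    have h0 : ∀ X : G.Curve, (∀ E : CK W (M ⊗ full W (G.h X)), G.IsProduct D X E → E.MurreB) →
        D.MurreB ∧ ∀ l i : ℤ, i + 1 < 2 * l →
          ∀ α : W.CH l (M ⊗ G.h X), α ≫ (D.p i ▷ G.h X) = 0 := by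
      intro X h
      obtain ⟨E, hE⟩ := exists_product G D X
      exact (murreB_prod_iff G D X E hE).1 (h E hE)
    obtain ⟨Y, -⟩ := G.genus
    constructor
    · intro h
      exact ⟨(h0 Y (h Y)).1, fun X => (h0 X (h X)).2⟩
    · rintro ⟨h1, h2⟩ X E hE
      exact (murreB_prod_iff G D X E hE).2 ⟨h1, h2 X⟩
  rw [hX]
  refine and_congr_right (fun hB => ?_)
  rw [CK.MurreB_iff] at hB
  constructor
  · intro h l
    obtain ⟨P, f, e, hfe, hef, -⟩ := D.split (2 * l)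
    refine (fam_split (algFam G) _ f e hfe hef l).2 ?_
    refine alg_van G P l (fun X α => ?_)
    exact zero_split _ f e hfe hef (h X (l + 1) (2 * l) (by omega)) α
  · intro h X l i hi
    obtain ⟨P, f, e, hfe, hef, -⟩ := D.split i
    refine split_zero _ f e hef (fun β => ?_)
    have hP : ∀ m : ℤ, i < 2 * m → ∀ γ : W.CH m P, γ = 0 := fun m hm γ =>
      (fam_split (topFam W) _ f e hfe hef m).1 (fun α _ => hB m i hm α) γ trivial
    refine van_generic G X P l (fun α ξ => ?_) (hP l (by omega)) β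
    refine (algFam G).van_twist (n := 1) (fun γ hγ => ?_) _ (alg_restrict G X P l α ξ)
    rcases lt_or_eq_of_le (show i ≤ 2 * (l - 1) by omega) with h1 | rfl
    · exact hP (l - 1) h1 γ
    · exact (fam_split (algFam G) _ f e hfe hef (l - 1)).1 (h (l - 1)) γ hγ

end Pool.Agent.AbAlg
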