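import Pool.Agent.AbAlg.Fam

/-!
# AbAlg-Alg: algebraically trivial cycles

PLAN.
`alg_comp`: `Submodule.span_induction`, generator `(z ≫ Γ) ≫ f = z ≫ (Γ ≫ f)`.
`alg_twist`: span induction (`add_whiskerRight`, `MonoidalLinear.smul_whiskerRight`); generator: `(tateAdd l m).hom ≫ ((z ≫ Γ) ▷ T m)` factors through
`(h X ⊗ T l) ⊗ T m ≅ h X ⊗ T (l + m)` (`α_ ≪≫ whiskerLeftIso (h X) (W.tateAdd l m).symm`).
`alg_hom`: span induction (`W.CHhom` is a submodule); generator: `W.H.map z = 0` by `W.hext` : `x ∈ gr (T l) (2 l)` (`W.mem_gr_tate`), so its image is in `gr (h X ⊗ T l) (2 l)`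
(`W.map_gr`), and `gr (h X ⊗ T l) (1 + 2 l) = ⊤` (`W.tensor_range (𝟙 _) (𝟙 _) 1 (2*l)` as in `vanish_of_pure`, ABC/ClassNil), `W.eq_zero_of_mem`.
`alg_restrict`: put `Y = h X`, `n = η_ Y Yᘁ ≫ ξ ▷ Yᘁ : 𝟙_ ⟶ T 1 ⊗ Yᘁ`, `z = (ρ_ (T l)).inv ≫ (T l ◁ n) : T l ⟶ T l ⊗ (T 1 ⊗ Yᘁ)`,
`Γ = (α ▷ (T 1 ⊗ Yᘁ)) ≫ (α_ M Y _).hom ≫ M ◁ ((β_ Y (T 1 ⊗ Yᘁ)).hom ≫ (α_ (T 1) Yᘁ Y).hom ≫ T 1 ◁ ε_ Y Yᘁ ≫ (ρ_ _).hom)`.
Then `z ≫ Γ = α ≫ M ◁ ξ`: move `α` to the front (`whisker_exchange`), then the remaining map `Y ⟶ T 1` is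
`(ρ_ Y).inv ≫ (Y ◁ n) ≫ (β_ Y (T 1 ⊗ Yᘁ)).hom ≫ (α_ (T 1) Yᘁ Y).hom ≫ T 1 ◁ ε_ Y Yᘁ ≫ (ρ_ _).hom`; by naturality of the braiding (`BraidedCategory.braiding_naturality_right`) and
`braiding_rightUnitor`-type lemmas it is `(λ_ Y).inv ≫ (n ▷ Y) ≫ (α_ ..).hom ≫ T 1 ◁ ε_ ≫ (ρ_ _).hom`, and by naturality of the associator and the zigzag identity
(`ExactPairing.evaluation_coevaluation` : `η_ X Y ▷ X ≫ (α_ _ _ _).hom ≫ X ◁ ε_ X Y = (λ_ X).hom ≫ (ρ_ X).inv`) it is `ξ`.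
Finally `T l ⊗ (T 1 ⊗ Yᘁ) ≅ Y ⊗ T l`: from `G.dual X`, `Yᘁ ≅ Y ⊗ T (-1)`, `T 1 ⊗ (Y ⊗ T (-1)) ≅ (T 1 ⊗ Y) ⊗ T (-1) ≅ (Y ⊗ T 1) ⊗ T (-1) ≅ Y` (`untwist W Y 1`), then `β_`.
`alg_van`: for a generator `z ≫ Γ`, `Γ : Y ⊗ T l ⟶ N` is zero: `(β_ (T l) Y).hom ≫ Γ : T l ⊗ Y ⟶ N` corresponds to `T l ⟶ N ⊗ Yᘁ` under
`tensorRightHomEquiv (T l) Y Yᘁ N` (its value at `0` is `0`, it is injective), and `N ⊗ Yᘁ ≅ N ⊗ (Y ⊗ T (-1)) ≅ (N ⊗ Y) ⊗ T (-1)`;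
all elements of `CH_l ((N ⊗ Y) ⊗ T (-1))` are zero by `(topFam W).van_twist` and `h` (`l - (-1) = l + 1`).
-/

set_option autoImplicit false
set_option linter.unusedSectionVars false

open CategoryTheory MonoidalCategory Limits
open Pool.Agent.Helper15.Murre Pool.Agent.Helper15.ABC

universe t w v u

namespace Pool.Agent.AbAlg

variable {C : Type u} [Category.{v} C] [Preadditive C] [Linear ℚ C]
  [MonoidalCategory C] [SymmetricCategory C] [MonoidalPreadditive C] [MonoidalLinear ℚ C]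
  [RigidCategory C] [HasBinaryBiproducts C] {F : Type w} [Field F] {W : MotivicHomology C F}

theorem alg_comp (G : Curves.{t} W) {l : ℤ} {M N : C} (α : W.CH l M) (f : M ⟶ N)
    (hα : α ∈ G.Alg l M) : α ≫ f ∈ G.Alg l N := by
  unfold Curves.Alg at hα
  induction hα using Submodule.span_induction with
  | mem x hx =>
    obtain ⟨X, z, Γ, rfl⟩ := hx
    exact Submodule.subset_span ⟨X, z, Γ ≫ f, Category.assoc _ _ _⟩
  | zero =>
    rw [zero_comp]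
    exact Submodule.zero_mem _
  | add x y _ _ hx hy =>
    rw [Preadditive.add_comp]
    exact Submodule.add_mem _ hx hy
  | smul q x _ hx =>
    rw [Linear.smul_comp]
    exact Submodule.smul_mem _ _ hx

theorem alg_twist (G : Curves.{t} W) {l : ℤ} {M : C} (m : ℤ) (α : W.CH l M)
    (hα : α ∈ G.Alg l M) : (W.tateAdd l m).hom ≫ (α ▷ W.T m) ∈ G.Alg (l + m) (M ⊗ W.T m) := by
  unfold Curves.Alg at hα
  induction hα using Submodule.span_induction with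
  | mem x hx =>
    obtain ⟨X, z, Γ, rfl⟩ := hx
    let e : (G.h X ⊗ W.T l) ⊗ W.T m ≅ G.h X ⊗ W.T (l + m) :=
      (α_ _ _ _) ≪≫ whiskerLeftIso (G.h X) (W.tateAdd l m).symm
    refine Submodule.subset_span ⟨X, (W.tateAdd l m).hom ≫ (z ▷ W.T m) ≫ e.hom,
      e.inv ≫ Γ ▷ W.T m, ?_⟩
    rw [comp_whiskerRight]
    simp only [Category.assoc, Iso.hom_inv_id_assoc]
  | zero =>
    rw [MonoidalPreadditive.zero_whiskerRight, comp_zero]
    exact Submodule.zero_mem _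
  | add x y _ _ hx hy =>
    rw [MonoidalPreadditive.add_whiskerRight, Preadditive.comp_add]
    exact Submodule.add_mem _ hx hy
  | smul q x _ hx =>
    rw [MonoidalLinear.smul_whiskerRight, Linear.comp_smul]
    exact Submodule.smul_mem _ _ hx

/-- the family of algebraically trivial cycles -/
def algFam (G : Curves.{t} W) : Fam W where
  Z := fun l M => G.Alg l M
  comp := fun α f hα => alg_comp G α f hα
  twist := fun m α hα => alg_twist G m α hα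

private lemma gen_hom (G : Curves.{t} W) {l : ℤ} (X : G.Curve) (z : W.T l ⟶ G.h X ⊗ W.T l) :
    W.H.map z = 0 := by
  have h0 : ∀ x : W.H.obj (G.h X), x ∈ W.gr (G.h X) 1 := fun x => by rw [G.odd]; trivial
  have h1 : ∀ x : W.H.obj (G.h X ⊗ W.T l), x ∈ W.gr (G.h X ⊗ W.T l) (1 + 2 * l) := by
    intro x
    have := W.tensor_range (𝟙 (G.h X)) (𝟙 (W.T l)) 1 (2 * l)
      (fun x => W.map_gr _ _ _ (h0 x)) (fun x => W.map_gr _ _ _ (W.mem_gr_tate _ x)) x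
    rwa [MonoidalCategory.id_tensorHom_id, W.map_id_apply] at this
  apply W.hext
  intro j x _
  have h2 := W.map_gr z _ x (W.mem_gr_tate l x)
  rw [W.eq_zero_of_mem (by omega) h2 (h1 _)]
  rfl

theorem alg_hom (G : Curves.{t} W) {l : ℤ} {M : C} (α : W.CH l M) (hα : α ∈ G.Alg l M) :
    α ∈ W.CHhom l M := by
  unfold Curves.Alg at hα
  induction hα using Submodule.span_induction with
  | mem x hx =>
    obtain ⟨X, z, Γ, rfl⟩ := hx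
    change W.H.map (z ≫ Γ) = 0
    rw [Functor.map_comp, gen_hom G X z, zero_comp]
  | zero => exact Submodule.zero_mem _
  | add x y _ _ hx hy => exact Submodule.add_mem _ hx hy
  | smul q x _ hx => exact Submodule.smul_mem _ _ hx

/-- the map `Y ⟶ T` recovered from its name -/
private lemma zig {Y T : C} (ξ : Y ⟶ T) :
    (ρ_ Y).inv ≫ (Y ◁ (η_ Y Yᘁ ≫ ξ ▷ Yᘁ)) ≫ (β_ Y (T ⊗ Yᘁ)).hom ≫ (α_ T Yᘁ Y).hom ≫
      T ◁ ε_ Y Yᘁ ≫ (ρ_ T).hom = ξ := by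
  rw [BraidedCategory.braiding_naturality_right_assoc]
  have h1 : (ρ_ Y).inv ≫ (β_ Y (𝟙_ C)).hom = (λ_ Y).inv := by
    rw [Iso.inv_comp_eq, Iso.eq_comp_inv]
    simp
  rw [reassoc_of% h1, comp_whiskerRight, Category.assoc, associator_naturality_left_assoc,
    ← whisker_exchange_assoc, rightUnitor_naturality]
  have h2 := ExactPairing.evaluation_coevaluation Y Yᘁ
  rw [reassoc_of% h2]
  simp

private lemma restr_aux {Y T : C} (M L : C) (α : L ⟶ M ⊗ Y) (ξ : Y ⟶ T) :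
    ((ρ_ L).inv ≫ (L ◁ (η_ Y Yᘁ ≫ ξ ▷ Yᘁ))) ≫ ((α ▷ (T ⊗ Yᘁ)) ≫ (α_ M Y _).hom ≫
      M ◁ ((β_ Y (T ⊗ Yᘁ)).hom ≫ (α_ T Yᘁ Y).hom ≫ T ◁ ε_ Y Yᘁ ≫ (ρ_ T).hom)) =
      α ≫ M ◁ ξ := by
  rw [Category.assoc, whisker_exchange_assoc, ← rightUnitor_inv_naturality_assoc]
  congr 1
  rw [associator_naturality_right_assoc]
  have h1 : (ρ_ (M ⊗ Y)).inv ≫ (α_ M Y (𝟙_ C)).hom = M ◁ (ρ_ Y).inv := by
    rw [← whiskerLeft_rightUnitor_inv]
  rw [reassoc_of% h1, ← MonoidalCategory.whiskerLeft_comp, ← MonoidalCategory.whiskerLeft_comp,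
    zig]

/-- the restriction of `α` to a point, minus its restriction to the base point, is algebraically
trivial -/
theorem alg_restrict (G : Curves.{t} W) (X : G.Curve) (M : C) (l : ℤ) (α : W.CH l (M ⊗ G.h X))
    (ξ : G.h X ⟶ W.T 1) : α ≫ (M ◁ ξ) ∈ G.Alg l (M ⊗ W.T 1) := by
  obtain ⟨d⟩ := G.dual X
  let e : W.T l ⊗ (W.T 1 ⊗ (G.h X)ᘁ) ≅ G.h X ⊗ W.T l :=
    whiskerLeftIso (W.T l) (whiskerLeftIso (W.T 1) d ≪≫ (α_ _ _ _).symm ≪≫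
      whiskerRightIso (β_ (W.T 1) (G.h X)) (W.T (-1)) ≪≫ untwist W (G.h X) 1) ≪≫ β_ _ _
  refine Submodule.subset_span ⟨X, ((ρ_ (W.T l)).inv ≫ (W.T l ◁ (η_ (G.h X) (G.h X)ᘁ ≫
    ξ ▷ (G.h X)ᘁ))) ≫ e.hom, e.inv ≫ ((α ▷ (W.T 1 ⊗ (G.h X)ᘁ)) ≫ (α_ M (G.h X) _).hom ≫
      M ◁ ((β_ (G.h X) (W.T 1 ⊗ (G.h X)ᘁ)).hom ≫ (α_ (W.T 1) (G.h X)ᘁ (G.h X)).hom ≫
        W.T 1 ◁ ε_ (G.h X) (G.h X)ᘁ ≫ (ρ_ (W.T 1)).hom)), ?_⟩
  rw [Category.assoc, Iso.hom_inv_id_assoc]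
  exact (restr_aux M (W.T l) α ξ).symm

/-- there are no algebraically trivial cycles if there are no families -/
theorem alg_van (G : Curves.{t} W) (N : C) (l : ℤ)
    (h : ∀ (X : G.Curve) (α : W.CH (l + 1) (N ⊗ G.h X)), α = 0) : ∀ α ∈ G.Alg l N, α = 0 := by
  intro α hα
  unfold Curves.Alg at hα
  induction hα using Submodule.span_induction with
  | mem x hx =>
    obtain ⟨X, z, Γ, rfl⟩ := hx
    obtain ⟨d⟩ := G.dual X
    have h1 : ∀ β : W.T l ⟶ N ⊗ (G.h X)ᘁ, β = 0 := by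
      intro β
      have h2 : β ≫ (whiskerLeftIso N d ≪≫ (α_ _ _ _).symm).hom = 0 := by
        refine (topFam W).van_twist (n := -1) ?_ _ trivial
        intro γ _
        have h3 : ∀ (k : ℤ) (_ : k = l + 1) (γ : W.CH k (N ⊗ G.h X)), γ = 0 := by
          rintro _ rfl γ
          exact h X γ
        exact h3 _ (by ring) γ
      have h4 := congrArg (· ≫ (whiskerLeftIso N d ≪≫ (α_ _ _ _).symm).inv) h2
      simpa using h4
    have h5 : (β_ (W.T l) (G.h X)).hom ≫ Γ = 0 := by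
      apply (tensorRightHomEquiv (W.T l) (G.h X) (G.h X)ᘁ N).injective
      rw [h1 (tensorRightHomEquiv (W.T l) (G.h X) (G.h X)ᘁ N _),
        h1 (tensorRightHomEquiv (W.T l) (G.h X) (G.h X)ᘁ N _)]
    have h6 : Γ = 0 := by
      have := congrArg ((β_ (W.T l) (G.h X)).inv ≫ ·) h5
      simpa using this
    rw [h6, comp_zero]
  | zero => rfl
  | add x y _ _ hx hy => rw [hx, hy, add_zero]
  | smul q x _ hx => rw [hx, smul_zero]

end Pool.Agent.AbAlg
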