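import Pool.Agent.Helper15.ABC.ClassNil
import Pool.Agent.Helper88.MADR.Assembly

/-!
# Motives generated by a set of curves: definitions
-/

set_option autoImplicit false

open CategoryTheory MonoidalCategory Limits
open Pool.Agent.Helper15.Murre Pool.Agent.Helper15.ABC

universe t w v u

namespace Pool.Agent.AbAlg

/-- `A(X₁) ⊗ ⋯ ⊗ A(Xₙ)`, for a list `X₁, …, Xₙ` -/
def tens {C : Type u} [Category.{v} C] [MonoidalCategory C] {ι : Type t} (A : ι → C) :
    List ι → C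
  | [] => 𝟙_ C
  | X :: L => tens A L ⊗ A X

variable {C : Type u} [Category.{v} C] [Preadditive C] [Linear ℚ C]
  [MonoidalCategory C] [SymmetricCategory C] [RigidCategory C] [HasBinaryBiproducts C]
  {F : Type w} [Field F]

/-- The motive `h(X) = 1 ⊕ h₁(X) ⊕ 1(1)` of a curve `X` with base point. -/
noncomputable def full (W : MotivicHomology C F) (h₁ : C) : C := (𝟙_ C ⊞ h₁) ⊞ W.T 1

/-- the projection `h(X) ⟶ 1` -/
noncomputable def toUnit (W : MotivicHomology C F) (h₁ : C) : full W h₁ ⟶ 𝟙_ C :=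
  (biprod.fst : (𝟙_ C ⊞ h₁) ⊞ W.T 1 ⟶ 𝟙_ C ⊞ h₁) ≫ biprod.fst

/-- the projection `h(X) ⟶ h₁(X)` -/
noncomputable def toOne (W : MotivicHomology C F) (h₁ : C) : full W h₁ ⟶ h₁ :=
  (biprod.fst : (𝟙_ C ⊞ h₁) ⊞ W.T 1 ⟶ 𝟙_ C ⊞ h₁) ≫ biprod.snd

/-- the projection `h(X) ⟶ 1(1)` -/
noncomputable def toTate (W : MotivicHomology C F) (h₁ : C) : full W h₁ ⟶ W.T 1 :=
  (biprod.snd : (𝟙_ C ⊞ h₁) ⊞ W.T 1 ⟶ W.T 1)

/-- A set of smooth projective curves with base point over a universal domain `Ω`, at least one of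
them of genus `≥ 1` (for example: all curves, or one curve), and the classical facts on them which
are used. -/
structure Curves (W : MotivicHomology C F) where
  /-- the curves -/
  Curve : Type t
  /-- the motive `h₁(X)` of a curve -/
  h : Curve → C
  /-- `h₁(X)` has homology in degree `1` only -/
  odd : ∀ X, W.gr (h X) 1 = ⊤
  /-- `h₁(X)` is self-dual: `h₁(X)ᘁ = h₁(X)(-1)` -/
  dual : ∀ X, Nonempty ((h X)ᘁ ≅ h X ⊗ W.T (-1))
  /-- `CH_l(Spec Ω) = 0` for `l ≠ 0` -/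
  point : ∀ l : ℤ, l ≠ 0 → ∀ f : W.T l ⟶ 𝟙_ C, f = 0
  /-- Let `x` be a point of `X` which is generic over a field of definition of `M` and `α`, and let
  `ξ : h₁(X) ⟶ 1(1)` be the class of `x - x₀`. If the restriction of `α ∈ CH_l(M ⊗ h₁(X))` to `x`
  is zero, then `α` is supported over finitely many points of `X`. -/
  generic : ∀ (X : Curve) (M : C) (l : ℤ) (α : W.CH l (M ⊗ h X)), ∃ ξ : h X ⟶ W.T 1,
    α ≫ (M ◁ ξ) = 0 → α ∈ Submodule.span ℚ {γ : W.CH l (M ⊗ h X) |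
      ∃ (i : W.T 0 ⟶ h X) (β : W.CH l (M ⊗ W.T 0)), γ = β ≫ (M ◁ i)}
  /-- some curve has genus `≥ 1`: then `h₁(X) ⊗ h₁(X)` contains `1(1)` -/
  genus : ∃ X, Nonempty (Retract (W.T 1) (h X ⊗ h X))
  /-- Kimura's theorem: the motive of a product of curves is finite-dimensional -/
  kimura : ∀ L : List Curve, KimuraFinite (tens (fun X => full W (h X)) L)

namespace Curves

variable {W : MotivicHomology C F} (G : Curves.{t} W)

/-- the motive `h(X₁ × ⋯ × Xₙ)` of a product of curves -/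
noncomputable def prod (L : List G.Curve) : C := tens (fun X => full W (G.h X)) L

/-- Algebraically trivial cycles: the group generated by the cycles `Γ_*(z)`, where
`z ∈ CH_0(h₁(X))` (a zero-cycle of degree `0` on a curve `X`) and `Γ : h₁(X)(l) ⟶ M`. -/
def Alg (l : ℤ) (M : C) : Submodule ℚ (W.CH l M) :=
  Submodule.span ℚ {γ | ∃ (X : G.Curve) (z : W.T l ⟶ G.h X ⊗ W.T l) (Γ : G.h X ⊗ W.T l ⟶ M),
    γ = z ≫ Γ}

/-- `h₁(A)`, for the product `A` of the Jacobians of `X` and of the curves in the list -/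
noncomputable def jac (X : G.Curve) : List G.Curve → C
  | [] => G.h X
  | Y :: L => jac X L ⊞ G.h Y

/-- `E` is the product of the decomposition `D` of `M` with `h(X) = 1 ⊕ h₁(X) ⊕ 1(1)`, that is
`(M × X)_n = M_n ⊕ M_{n-1} ⊗ h₁(X) ⊕ M_{n-2}(1)` for all `n`. -/
structure IsProduct {M : C} (D : CK W M) (X : G.Curve) (E : CK W (M ⊗ full W (G.h X))) : Prop where
  unit : ∀ n, E.p n ≫ (M ◁ toUnit W (G.h X)) = (M ◁ toUnit W (G.h X)) ≫ (D.p n ▷ 𝟙_ C)
  one : ∀ n, E.p n ≫ (M ◁ toOne W (G.h X)) = (M ◁ toOne W (G.h X)) ≫ (D.p (n - 1) ▷ G.h X)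
  tate : ∀ n, E.p n ≫ (M ◁ toTate W (G.h X)) = (M ◁ toTate W (G.h X)) ≫ (D.p (n - 2) ▷ W.T 1)

/-- Murre's (B) for cycles of dimension `≤ n + 1` or of codimension `≤ n`: for all direct summands
`N` of motives of products of curves `X₁ × ⋯ × X_r` (`r` arbitrary) and every Chow-Kunneth
decomposition of `N`, `CH_l(N_i) = 0` for `i < 2l`, if `l ≤ n + 1` or `r - l ≤ n`. -/
def RangeB (n : ℕ) : Prop :=
  ∀ (L : List G.Curve) (N : C), Nonempty (Retract N (G.prod L)) → ∀ (D : CK W N) (l : ℤ),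
    (l ≤ n + 1 ∨ (L.length : ℤ) ≤ l + n) → ∀ i, i < 2 * l → D.CH l i = ⊥

/-- Murre's (D) for cycles of dimension `≤ n` or of codimension `≤ n`: for all direct summands `N`
of motives of products of curves `X₁ × ⋯ × X_r` and every Chow-Kunneth decomposition of `N`,
`CH_l(N_{2l})_hom = 0`, if `l ≤ n` or `r - l ≤ n`. -/
def RangeD (n : ℕ) : Prop :=
  ∀ (L : List G.Curve) (N : C), Nonempty (Retract N (G.prod L)) → ∀ (D : CK W N) (l : ℤ),
    (l ≤ n ∨ (L.length : ℤ) ≤ l + n) → D.CH l (2 * l) ⊓ W.CHhom l N = ⊥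

/-- all classes in `Z ⊆ CH_l(h₁(X₁) ⊗ ⋯ ⊗ h₁(X_k))` are zero -/
def TensZero (Z : ∀ (l : ℤ) (M : C), Submodule ℚ (W.CH l M)) (l : ℤ) (k : ℕ) : Prop :=
  ∀ L : List G.Curve, L.length = k → ∀ α ∈ Z l (tens G.h L), α = 0

/-- all classes in `Z ⊆ CH_l(h_k(A))` are zero, `h_k(A) = Sym^k h₁(A)`, for all products `A` of
Jacobians of the curves -/
def SymZero (Z : ∀ (l : ℤ) (M : C), Submodule ℚ (W.CH l M)) (l : ℤ) (k : ℕ) : Prop :=
  ∀ (X : G.Curve) (L : List G.Curve), ∀ α ∈ Z l (tpow (G.jac X L) k),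
    (∀ i, α ≫ adj (G.jac X L) k i = α) → α = 0

/-- all classes in `Z ⊆ CH_0(N)` are zero, for all motives `N` generated by the curves which have
homology in degree `w` only -/
def PureZero (Z : ∀ (l : ℤ) (M : C), Submodule ℚ (W.CH l M)) (w : ℤ) : Prop :=
  ∀ N : C, Generated W G.prod N → W.gr N w = ⊤ → ∀ α ∈ Z 0 N, α = 0

end Curves

/-- all classes -/
def all (W : MotivicHomology C F) (l : ℤ) (M : C) : Submodule ℚ (W.CH l M) := ⊤

/-- `N` satisfies (A), (B) for every Chow-Kunneth decomposition, and (C). -/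
def HoldsABC {C : Type u} [Category.{v} C] [Preadditive C] [Linear ℚ C]
    [MonoidalCategory C] [SymmetricCategory C] [RigidCategory C] {F : Type w} [Field F]
    (W : MotivicHomology C F) (N : C) : Prop :=
  MurreA W N ∧ (∀ D : CK W N, D.MurreB) ∧ MurreC W N

/-- `N` satisfies (A), (B) and (D) for every Chow-Kunneth decomposition, and (C). -/
def HoldsABCD {C : Type u} [Category.{v} C] [Preadditive C] [Linear ℚ C]
    [MonoidalCategory C] [SymmetricCategory C] [RigidCategory C] {F : Type w} [Field F]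
    (W : MotivicHomology C F) (N : C) : Prop :=
  MurreA W N ∧ (∀ D : CK W N, D.MurreB ∧ D.MurreD) ∧ MurreC W N

end Pool.Agent.AbAlg
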