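import Pool.Agent.AbAlg.Glob
import Pool.Agent.Helper15.Murre.Descent

/-!
# Descent to an arbitrary base field
-/

set_option autoImplicit false
set_option linter.unusedSectionVars false

open CategoryTheory MonoidalCategory Limits
open Pool.Agent.Helper15.Murre Pool.Agent.Helper15.ABC Pool.Agent.Helper88.MADR
open Pool.Agent.Helper58.MAD

universe t w v' u' v u

namespace Pool.Agent.AbAlg

section desc

variable {C : Type u} [Category.{v} C] [Preadditive C] [Linear ℚ C]
  [MonoidalCategory C] [SymmetricCategory C] [RigidCategory C] {F : Type w} [Field F]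
variable {C' : Type u'} [Category.{v'} C'] [Preadditive C'] [Linear ℚ C']
  [MonoidalCategory C'] [SymmetricCategory C'] [RigidCategory C']
variable {W : MotivicHomology C F} {W' : MotivicHomology C' F} {Φ : C ⥤ C'}

/-- descent of (C) -/
theorem desc_murreC (B : BaseChange W W' Φ) {N : C} (h : MurreC W' (Φ.obj N)) :
    MurreC W N := by
  have hadd := B.additive
  have hfaith := B.faithful
  rw [MurreC_iff] at h ⊢
  intro E E' l i j hij α
  apply Φ.map_injective
  rw [Functor.map_comp, Functor.map_comp, Functor.map_zero]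
  have h1 := h (E.baseChange B) (E'.baseChange B) l i j hij ((B.tate l).hom ≫ Φ.map α)
  change ((B.tate l).hom ≫ Φ.map α) ≫ Φ.map (E.p i) ≫ Φ.map (E'.p j) = 0 at h1
  have h2 := congrArg ((B.tate l).inv ≫ ·) h1
  simpa using h2

/-- descent of (B) -/
theorem desc_murreB (B : BaseChange W W' Φ) {N : C} (E : CK W N)
    (h : (E.baseChange B).MurreB) : E.MurreB := by
  have hadd := B.additive
  have hfaith := B.faithful
  rw [CK.MurreB_iff] at h ⊢
  intro l i hi α
  apply Φ.map_injective
  rw [Functor.map_comp, Functor.map_zero]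
  have h1 := h l i hi ((B.tate l).hom ≫ Φ.map α)
  change ((B.tate l).hom ≫ Φ.map α) ≫ Φ.map (E.p i) = 0 at h1
  have h3 := congrArg ((B.tate l).inv ≫ ·) h1
  simpa using h3

/-- descent of (D) -/
theorem desc_murreD (B : BaseChange W W' Φ) {N : C} (E : CK W N)
    (h : (E.baseChange B).MurreD) : E.MurreD := by
  have hadd := B.additive
  have hfaith := B.faithful
  rw [CK.MurreD_iff] at h ⊢
  intro l α hα hH
  apply Φ.map_injective
  rw [Functor.map_zero]
  have h2 : W'.H.map (Φ.map α) = 0 := by
    ext y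
    obtain ⟨x, rfl⟩ := (B.comp _).surjective y
    rw [← B.comp_nat, hH]
    exact map_zero _
  have h1 := h l ((B.tate l).hom ≫ Φ.map α) (by
    change ((B.tate l).hom ≫ Φ.map α) ≫ Φ.map (E.p (2 * l)) = (B.tate l).hom ≫ Φ.map α
    rw [Category.assoc, ← Functor.map_comp, hα]) (by rw [Functor.map_comp, h2, comp_zero])
  have h3 := congrArg ((B.tate l).inv ≫ ·) h1
  simpa using h3

/-- descent of (A) -/
theorem desc_murreA (B : BaseChange W W' Φ) (A : KunnethDescends W' Φ) {N : C}
    (h : MurreA W' (Φ.obj N))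
    (hnil : ∀ f : Φ.obj N ⟶ Φ.obj N, W'.H.map f = 0 → ∃ m : ℕ, pw f m = 0) : MurreA W N := by
  have hadd := B.additive
  have hfaith := B.faithful
  obtain ⟨D⟩ := h
  refine exists_CK_local (fun f hf => ?_) (fun i => ?_)
  · obtain ⟨m, hm⟩ := hnil (Φ.map f) (by
      ext y
      obtain ⟨x, rfl⟩ := (B.comp _).surjective y
      rw [← B.comp_nat, hf]
      exact map_zero _)
    refine ⟨m, Φ.map_injective ?_⟩
    have h1 : ∀ m : ℕ, Φ.map (pw f m) = pw (Φ.map f) m := by
      intro m
      induction m with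
      | zero => exact Φ.map_id N
      | succ m ih =>
        change Φ.map (pw f m ≫ f) = pw (Φ.map f) m ≫ Φ.map f
        rw [Functor.map_comp, ih]
    rw [h1, hm, Functor.map_zero]
  · obtain ⟨y, hy⟩ := A N D i
    refine ⟨y, fun j x hx => ?_⟩
    apply (B.comp N).injective
    rw [B.comp_nat, hy, D.homology i j _ ((B.comp_gr N j x).1 hx)]
    split_ifs
    · rfl
    · exact (map_zero _).symm

end desc

variable {C : Type u} [Category.{v} C] [Preadditive C] [Linear ℚ C]
  [MonoidalCategory C] [SymmetricCategory C] [RigidCategory C] {F : Type w} [Field F]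
variable {C' : Type u'} [Category.{v'} C'] [Preadditive C'] [Linear ℚ C']
  [MonoidalCategory C'] [SymmetricCategory C'] [MonoidalPreadditive C'] [MonoidalLinear ℚ C']
  [RigidCategory C'] [HasBinaryBiproducts C'] [IsIdempotentComplete C']
variable {W : MotivicHomology C F} {W' : MotivicHomology C' F} {Φ : C ⥤ C'}

theorem kimura_gen (G : Curves.{t} W')
    (h : ∀ N : C', Generated W' G.prod N → MurreA W' N ∧ (∀ D : CK W' N, D.MurreB) ∧
      MurreC W' N) (N : C') (hN : Generated W' G.prod N) : KimuraFinite N := by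
  have h1 := (productClass G).tfae_abc.out 1 5
  exact (h1.1 (fun L => ⟨(h _ ((productClass G).self L)).1, (h _ ((productClass G).self L)).2.1⟩)
    N hN).2.2.2

/-- (A), (B), (C) over `k` -/
theorem descABC (B : BaseChange W W' Φ) (A : KunnethDescends W' Φ) (G : Curves.{t} W')
    (h : ∀ N : C', Generated W' G.prod N → MurreA W' N ∧ (∀ D : CK W' N, D.MurreB) ∧
      MurreC W' N) (N : C) (hN : Generated W' G.prod (Φ.obj N)) :
    MurreA W N ∧ (∀ D : CK W N, D.MurreB) ∧ MurreC W N := by
  obtain ⟨h1, h2, h3⟩ := h _ hN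
  refine ⟨desc_murreA B A h1 (fun f hf => nil_of_kimura (kimura_gen G h _ hN) f hf),
    fun D => desc_murreB B D (h2 _), desc_murreC B h3⟩

/-- (A)-(D) over `k` -/
theorem descABCD (B : BaseChange W W' Φ) (A : KunnethDescends W' Φ) (G : Curves.{t} W')
    (h : ∀ N : C', Generated W' G.prod N → MurreA W' N ∧ (∀ D : CK W' N, D.MurreB ∧ D.MurreD) ∧
      MurreC W' N) (N : C) (hN : Generated W' G.prod (Φ.obj N)) :
    MurreA W N ∧ (∀ D : CK W N, D.MurreB ∧ D.MurreD) ∧ MurreC W N := by
  obtain ⟨h1, h2, h3⟩ := descABC B A G (fun N hN => ⟨(h N hN).1, fun D => ((h N hN).2.1 D).1,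
    (h N hN).2.2⟩) N hN
  exact ⟨h1, fun D => ⟨h2 D, desc_murreD B D ((h _ hN).2.1 _).2⟩, h3⟩

end Pool.Agent.AbAlg
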