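import Pool.Agent.AbAlg.Defs

/-!
# Families of subgroups of the Chow groups
-/

set_option autoImplicit false
set_option linter.unusedSectionVars false

open CategoryTheory MonoidalCategory Limits
open Pool.Agent.Helper15.Murre Pool.Agent.Helper15.ABC

universe t w v u

namespace Pool.Agent.AbAlg

variable {C : Type u} [Category.{v} C] [Preadditive C] [Linear ℚ C]
  [MonoidalCategory C] [SymmetricCategory C] [MonoidalPreadditive C] [MonoidalLinear ℚ C]
  [RigidCategory C] {F : Type w} [Field F]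

/-- subgroups of all Chow groups, stable under correspondences and twists -/
structure Fam (W : MotivicHomology C F) where
  /-- the subgroup -/
  Z : ∀ (l : ℤ) (M : C), Submodule ℚ (W.CH l M)
  comp : ∀ {l : ℤ} {M N : C} (α : W.CH l M) (f : M ⟶ N), α ∈ Z l M → α ≫ f ∈ Z l N
  twist : ∀ {l : ℤ} {M : C} (m : ℤ) (α : W.CH l M), α ∈ Z l M →
    (W.tateAdd l m).hom ≫ (α ▷ W.T m) ∈ Z (l + m) (M ⊗ W.T m)

/-- all cycles -/
def topFam (W : MotivicHomology C F) : Fam W where
  Z := fun _ _ => ⊤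
  comp := fun _ _ _ => trivial
  twist := fun _ _ _ => trivial

/-- homologically trivial cycles -/
def homFam (W : MotivicHomology C F) : Fam W where
  Z := fun l M => W.CHhom l M
  comp := fun α f hα => by
    have h1 : W.H.map α = 0 := hα
    change W.H.map (α ≫ f) = 0
    rw [Functor.map_comp, h1, zero_comp]
  twist := fun {l M} m α hα => by
    have h1 : W.H.map α = 0 := hα
    change W.H.map ((W.tateAdd l m).hom ≫ (α ▷ W.T m)) = 0
    have h2 := W.H_tensor_zero α (𝟙 (W.T m)) h1
    rw [tensorHom_id] at h2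
    rw [Functor.map_comp, h2, comp_zero]

variable {W : MotivicHomology C F}

theorem Fam.shift (Z : Fam W) {l n : ℤ} {M : C} (α : W.CH l (M ⊗ W.T n))
    (hα : α ∈ Z.Z l (M ⊗ W.T n)) : shiftCH W l n α ∈ Z.Z (l - n) M := by
  have h1 := Z.comp _ (untwist W M n).hom (Z.twist (-n) α hα)
  have key : ∀ (k : ℤ) (hk : k = l + -n) (β : W.CH (l + -n) M), β ∈ Z.Z (l + -n) M →
      eqToHom (by rw [hk]) ≫ β ∈ Z.Z k M := by
    rintro _ rfl β hβ
    simpa using hβ
  have h2 := key (l - n) (sub_eq_add_neg l n) _ h1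
  unfold shiftCH
  simpa only [Category.assoc] using h2

/-- vanishing for a twist -/
theorem Fam.van_twist (Z : Fam W) {l n : ℤ} {M : C} (h : ∀ β ∈ Z.Z (l - n) M, β = 0) :
    ∀ α ∈ Z.Z l (M ⊗ W.T n), α = 0 :=
  fun α hα => shiftCH_injective l n α (h _ (Z.shift α hα))

/-- vanishing from a twist -/
theorem Fam.van_untwist (Z : Fam W) {l : ℤ} (m : ℤ) {M : C}
    (h : ∀ β ∈ Z.Z (l + m) (M ⊗ W.T m), β = 0) : ∀ α ∈ Z.Z l M, α = 0 := by
  intro α hα
  have h1 := h _ (Z.twist m α hα)
  have h2 : α ▷ W.T m = 0 := by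
    have h3 := congrArg ((W.tateAdd l m).inv ≫ ·) h1
    simpa using h3
  exact whisker_faithful (W := W) α m h2

end Pool.Agent.AbAlg
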