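import Pool.Agent.AbAlg.Range

/-!
# The equivalences for all motives generated by the curves
-/

set_option autoImplicit false
set_option linter.unusedSectionVars false

open CategoryTheory MonoidalCategory Limits
open Pool.Agent.Helper15.Murre Pool.Agent.Helper15.ABC Pool.Agent.Helper88.MADR

universe t w v u

namespace Pool.Agent.AbAlg

variable {C : Type u} [Category.{v} C] [Preadditive C] [Linear ℚ C]
  [MonoidalCategory C] [SymmetricCategory C] [MonoidalPreadditive C] [MonoidalLinear ℚ C]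
  [RigidCategory C] [HasBinaryBiproducts C] [IsIdempotentComplete C] {F : Type w} [Field F]
  {W : MotivicHomology C F}

/-- purity of tensor products -/
theorem pure_tensor {M N : C} (a b : ℤ) (hM : W.gr M a = ⊤) (hN : W.gr N b = ⊤) :
    W.gr (M ⊗ N) (a + b) = ⊤ := by
  rw [eq_top_iff]
  intro x _
  have h1 := W.tensor_range (𝟙 M) (𝟙 N) a b
    (fun x => W.map_gr _ _ _ (by rw [hM]; trivial))
    (fun x => W.map_gr _ _ _ (by rw [hN]; trivial)) x
  rwa [MonoidalCategory.id_tensorHom_id, W.map_id_apply] at h1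

theorem gen_tens (G : Curves.{t} W) (L : List G.Curve) : Generated W G.prod (tens G.h L) := by
  obtain ⟨R⟩ := tens_retract G L
  exact ((productClass G).self L).retract R

theorem gen_curve (G : Curves.{t} W) (X : G.Curve) : Generated W G.prod (G.h X) :=
  (gen_tens G [X]).retract (retractIso (λ_ (G.h X)).symm)

/-- (A), (B), (C) for all motives generated by the curves -/
theorem glob (G : Curves.{t} W) :
    [∀ N : C, Generated W G.prod N → MurreA W N ∧ (∀ D : CK W N, D.MurreB) ∧ MurreC W N,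
      ∀ N : C, Generated W G.prod N → W.gr N (-1) = ⊤ → ∀ α : W.CH 0 N, α = 0,
      ∀ N : C, Generated W G.prod N → W.gr N 0 = ⊤ → ∀ α ∈ G.Alg 0 N, α = 0,
      ∀ (n : ℕ) (X : G.Curve) (L : List G.Curve),
        ∀ α : W.CH (n + 1) (tpow (G.jac X L) (2 * n + 1)),
          (∀ i, α ≫ adj (G.jac X L) (2 * n + 1) i = α) → α = 0,
      ∀ (n : ℕ) (X : G.Curve) (L : List G.Curve), ∀ α ∈ G.Alg n (tpow (G.jac X L) (2 * n)),
        (∀ i, α ≫ adj (G.jac X L) (2 * n) i = α) → α = 0].TFAE := by
  tfae_have 1 → 2 := fun h N hN hw α => pure_vanish (h N hN).2.1 (-1) (by norm_num) hw α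
  tfae_have 2 → 3 := by
    intro h N hN hw
    refine alg_van G N 0 (fun X α => ?_)
    have h1 := h ((N ⊗ G.h X) ⊗ W.T (-1))
      (Generated.twist (productClass G) ((productClass G).tensor hN (gen_curve G X)) (-1))
      (by
        have h2 := pure_tensor (0 + 1) (2 * (-1)) (pure_tensor 0 1 hw (G.odd X)) (W.tate (-1))
        norm_num at h2
        exact h2)
    refine (topFam W).van_untwist (-1) (fun β _ => ?_) α trivial
    have key : ∀ k : ℤ, k = 0 → ∀ γ : W.CH k ((N ⊗ G.h X) ⊗ W.T (-1)), γ = 0 := by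
      rintro _ rfl γ
      exact h1 γ
    exact key (0 + 1 + -1) (by norm_num) β
  tfae_have 3 → 5 := by
    intro h n
    refine ((level G n).out 2 4).1 (fun L hL => ?_)
    refine (algFam G).van_untwist (-(n : ℤ)) (fun β hβ => ?_)
    have h1 := h (tens G.h L ⊗ W.T (-(n : ℤ)))
      (Generated.twist (productClass G) (gen_tens G L) _)
      (by
        have h2 := pure_tensor _ _ (tens_pure G L) (W.tate (-(n : ℤ)))
        have h3 : (L.length : ℤ) + 2 * (-(n : ℤ)) = 0 := by rw [hL]; push_cast; ring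
        rwa [h3] at h2)
    have key : ∀ k : ℤ, k = 0 → ∀ γ ∈ G.Alg k (tens G.h L ⊗ W.T (-(n : ℤ))), γ = 0 := by
      rintro _ rfl γ hγ
      exact h1 γ hγ
    exact key _ (add_neg_cancel _) β hβ
  tfae_have 5 → 4 := fun h n => ((level G n).out 4 3).1 (h n)
  tfae_have 4 → 1 := by
    intro h N hN
    have h1 : ∀ L : List G.Curve, KimuraFinite (G.prod L) ∧ ∃ D : CK W (G.prod L), D.MurreB := by
      intro L
      obtain ⟨D⟩ := murreA_prod G L
      have hn := (level G L.length).out 3 0
      exact ⟨G.kimura L, D, hn.1 (h L.length) L (by omega) D⟩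
    have h5 := (productClass G).tfae_abc.out 2 5
    obtain ⟨h2, h3, h4, -⟩ := h5.1 h1 N hN
    exact ⟨h2, h3, h4⟩
  tfae_finish

/-- (A)-(D) for all motives generated by the curves -/
theorem globD (G : Curves.{t} W) :
    [∀ N : C, Generated W G.prod N → MurreA W N ∧ (∀ D : CK W N, D.MurreB ∧ D.MurreD) ∧
        MurreC W N,
      ∀ N : C, Generated W G.prod N → W.gr N 0 = ⊤ → ∀ α ∈ W.CHhom 0 N, α = 0,
      ∀ (n : ℕ) (X : G.Curve) (L : List G.Curve), ∀ α ∈ W.CHhom n (tpow (G.jac X L) (2 * n)),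
        (∀ i, α ≫ adj (G.jac X L) (2 * n) i = α) → α = 0].TFAE := by
  tfae_have 1 → 2 := by
    intro h N hN hw α hα
    have h1 := pure_vanish' (h N hN).2.1 0 le_rfl hw
    rw [h1] at hα
    simpa using hα
  tfae_have 2 → 3 := by
    intro h n
    refine ((levelD G n).out 1 2).1 (fun L hL => ?_)
    refine (homFam W).van_untwist (-(n : ℤ)) (fun β hβ => ?_)
    have h1 := h (tens G.h L ⊗ W.T (-(n : ℤ)))
      (Generated.twist (productClass G) (gen_tens G L) _)
      (by
        have h2 := pure_tensor _ _ (tens_pure G L) (W.tate (-(n : ℤ)))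
        have h3 : (L.length : ℤ) + 2 * (-(n : ℤ)) = 0 := by rw [hL]; push_cast; ring
        rwa [h3] at h2)
    have key : ∀ k : ℤ, k = 0 → ∀ γ ∈ W.CHhom k (tens G.h L ⊗ W.T (-(n : ℤ))), γ = 0 := by
      rintro _ rfl γ hγ
      exact h1 γ hγ
    exact key _ (add_neg_cancel _) β hβ
  tfae_have 3 → 1 := by
    intro h N hN
    have h0 : ∀ L : List G.Curve, ∀ D : CK W (G.prod L), D.MurreB ∧ D.MurreD := by
      intro L D
      have h1 := ((levelD G L.length).out 2 0).1 (h L.length)
      exact ⟨h1.1 L (by omega) D, h1.2 L (by omega) D⟩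
    have h1 : ∀ L : List G.Curve, KimuraFinite (G.prod L) ∧ ∃ D : CK W (G.prod L), D.MurreB :=
      fun L => ⟨G.kimura L, (murreA_prod G L).some, (h0 L _).1⟩
    have h2 := ((productClass G).tfae_abc.out 2 0).1 h1
    have h3 := (productClass G).tfae_abcd.out 0 3
    exact h3.1 (fun L => ⟨(h2 L).2, (murreA_prod G L).some, (h0 L _).2⟩) N hN
  tfae_finish

end Pool.Agent.AbAlg
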