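import Pool.Agent.AbAlg.Alg

/-!
# The induction on the number of curves
-/

set_option autoImplicit false
set_option linter.unusedSectionVars false

open CategoryTheory MonoidalCategory Limits
open Pool.Agent.Helper15.Murre Pool.Agent.Helper15.ABC

universe t w v u

namespace Pool.Agent.AbAlg

variable {C : Type u} [Category.{v} C] [Preadditive C] [Linear ℚ C]
  [MonoidalCategory C] [SymmetricCategory C] [MonoidalPreadditive C] [MonoidalLinear ℚ C]
  [RigidCategory C] [HasBinaryBiproducts C] {F : Type w} [Field F] {W : MotivicHomology C F}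

/-- two more curves, one more dimension -/
theorem down (G : Curves.{t} W) (Z : Fam W) (l : ℤ) (k : ℕ)
    (h : ∀ L : List G.Curve, L.length = k + 2 → ∀ α ∈ Z.Z (l + 1) (tens G.h L), α = 0)
    (L : List G.Curve) (hL : L.length = k) : ∀ α ∈ Z.Z l (tens G.h L), α = 0 := by
  obtain ⟨E, ⟨R⟩⟩ := G.genus
  refine Z.van_untwist 1 (fun β hβ => ?_)
  have h1 := h (E :: E :: L) (by simp [hL])
    (β ≫ (tens G.h L ◁ R.i ≫ (α_ (tens G.h L) (G.h E) (G.h E)).inv)) (Z.comp β _ hβ)
  have h2 := congrArg (· ≫ ((α_ (tens G.h L) (G.h E) (G.h E)).hom ≫ tens G.h L ◁ R.r)) h1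
  have h3 : (β ≫ (tens G.h L ◁ R.i ≫ (α_ (tens G.h L) (G.h E) (G.h E)).inv)) ≫
      ((α_ (tens G.h L) (G.h E) (G.h E)).hom ≫ tens G.h L ◁ R.r) = β := by
    simp only [Category.assoc, Iso.inv_hom_id_assoc]
    rw [← MonoidalCategory.whiskerLeft_comp, R.retract, MonoidalCategory.whiskerLeft_id,
      Category.comp_id]
  rw [← h3]
  refine h2.trans ?_
  exact zero_comp

theorem down_le (G : Curves.{t} W) (Z : Fam W) (n : ℕ)
    (h : ∀ L : List G.Curve, L.length = 2 * n → ∀ α ∈ Z.Z (n : ℤ) (tens G.h L), α = 0)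
    (m : ℕ) (hm : m ≤ n) :
    ∀ L : List G.Curve, L.length = 2 * m → ∀ α ∈ Z.Z (m : ℤ) (tens G.h L), α = 0 := by
  induction n with
  | zero =>
    obtain rfl : m = 0 := by omega
    exact h
  | succ n ih =>
    rcases Nat.eq_or_lt_of_le hm with rfl | hlt
    · exact h
    · refine ih (fun L hL => ?_) (by omega)
      refine down G Z (n : ℤ) (2 * n) (fun L' hL' => ?_) L hL
      have h1 := h L' (by rw [hL']; ring)
      have h2 : ((n + 1 : ℕ) : ℤ) = (n : ℤ) + 1 := by push_cast; ring
      rw [h2] at h1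
      exact h1

/-- the classes of `M ⊗ h₁(X)` vanish if their restriction to the generic point and the classes of
`M` vanish -/
theorem van_generic (G : Curves.{t} W) (X : G.Curve) (M : C) (l : ℤ)
    (h1 : ∀ (α : W.CH l (M ⊗ G.h X)) (ξ : G.h X ⟶ W.T 1), α ≫ (M ◁ ξ) = 0)
    (h2 : ∀ β : W.CH l M, β = 0) (α : W.CH l (M ⊗ G.h X)) : α = 0 := by
  obtain ⟨ξ, hξ⟩ := G.generic X M l α
  have h3 := hξ (h1 α ξ)
  clear hξ
  have h4 : ∀ β : W.CH l (M ⊗ W.T 0), β = 0 := by
    intro β
    refine (topFam W).van_twist (n := 0) (fun γ _ => ?_) β trivial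
    have key : ∀ k : ℤ, k = l → ∀ γ : W.CH k M, γ = 0 := by
      rintro _ rfl γ
      exact h2 γ
    exact key (l - 0) (sub_zero l) γ
  induction h3 using Submodule.span_induction with
  | mem γ hγ =>
    obtain ⟨i, β, rfl⟩ := hγ
    rw [h4 β, zero_comp]
  | zero => rfl
  | add a b _ _ ha hb => rw [ha, hb, add_zero]
  | smul c a _ ha => rw [ha, smul_zero]

/-- The induction: if there are no algebraically trivial cycles of weight `0` then there are no
cycles of negative weight. -/
theorem core (G : Curves.{t} W) (n : ℕ)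
    (h : ∀ m : ℕ, m ≤ n → ∀ L : List G.Curve, L.length = 2 * m →
      ∀ α ∈ G.Alg (m : ℤ) (tens G.h L), α = 0)
    (L : List G.Curve) (hL : L.length ≤ 2 * n + 2) (l : ℤ) (hl : (L.length : ℤ) < 2 * l)
    (α : W.CH l (tens G.h L)) : α = 0 := by
  induction L generalizing l with
  | nil =>
    exact G.point l (by simp at hl; omega) α
  | cons X L ih =>
    rw [List.length_cons] at hL hl
    push_cast at hl
    refine van_generic G X (tens G.h L) l (fun α ξ => ?_) (fun β => ih (by omega) l (by omega) β) α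
    have h1 := alg_restrict G X (tens G.h L) l α ξ
    refine (algFam G).van_twist (n := 1) (fun β hβ => ?_) _ h1
    by_cases h2 : (L.length : ℤ) < 2 * (l - 1)
    · exact ih (by omega) (l - 1) h2 β
    · obtain ⟨m, hm⟩ : ∃ m : ℕ, (m : ℤ) = l - 1 := ⟨(l - 1).toNat, by omega⟩
      have h3 : L.length = 2 * m := by omega
      have h4 := h m (by omega) L h3
      have key : ∀ k : ℤ, k = (m : ℤ) → ∀ γ ∈ G.Alg k (tens G.h L), γ = 0 := by
        rintro _ rfl γ hγ
        exact h4 γ hγ
      exact key (l - 1) hm.symm β hβ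

end Pool.Agent.AbAlg
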