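import Pool.Agent.AbAlg.Fam

/-!
# AbAlg-PC: products of curves form a class closed under products

PLAN.
`bound` (classes of dimension `< 0` or `> dim`): induction on `L`.  `[]`: `G.point`.  `X :: L`: `G.prod (X :: L) = M ⊗ ((𝟙_ ⊞ G.h X) ⊞ W.T 1)`, `M = G.prod L`; by `biprod.total` it is enough that all classes of `M ⊗ 𝟙_`, `M ⊗ G.h X`, `M ⊗ W.T 1`
vanish; `M ⊗ W.T 1`: `(topFam W).van_twist`; `M ⊗ G.h X`: `G.generic`: `α ≫ (M ◁ ξ) ∈ CH_l (M ⊗ W.T 1)` is zero (dimension `l - 1`), so `α` is in the span of classes `β ≫ (M ◁ i)`, `β ∈ CH_l (M ⊗ W.T 0)`, which are zero (dimension `l - 0`).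
`productClass`: `prod`: `G.prod (L' ++ L) ≅ G.prod L ⊗ G.prod L'` by induction on `L'` (`ρ_`, `α_`).
`dual`: `(G.prod L)ᘁ ≅ G.prod L ⊗ W.T (-L.length)`: induction; `rightDualTensorIso`, `ABC.twistTensor`, `β_`; `[]`: `(𝟙_)ᘁ ≅ (W.T 0)ᘁ ≅ W.T (-0) ≅ 𝟙_ ≅ 𝟙_ ⊗ W.T 0` (isomorphic objects have isomorphic duals: `e.homᘁ`, `e.invᘁ`, `comp_rightAdjointMate`, `rightAdjointMate_id`);
`full`: `((𝟙_ ⊞ h) ⊞ T 1)ᘁ ≅ ((𝟙_)ᘁ ⊞ hᘁ) ⊞ (T 1)ᘁ ≅ (𝟙_ ⊞ h ⊗ T (-1)) ⊞ T (-1)` (`(A ⊞ B)ᘁ ≅ Aᘁ ⊞ Bᘁ`: `biprod.lift (biprod.inlᘁ) (biprod.inrᘁ)`, `biprod.desc (biprod.fstᘁ) (biprod.sndᘁ)`, `mate_add`, `mate_zero` in Murre/Tensor) and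
`((𝟙_ ⊞ h) ⊞ T 1) ⊗ T (-1) ≅ (T (-1) ⊞ h ⊗ T (-1)) ⊞ 𝟙_` (distributivity: `biprod.lift (fst ▷ _) (snd ▷ _)`, `biprod.desc (inl ▷ _) (inr ▷ _)`, `W.tateInv 1`), then permute the summands (`biprod.braiding`, `biprod.associator`, or directly with lift/desc).
`tate`: `bound` if `l < 0` or `l > L.length`; otherwise `W.T l` is a retract of `G.prod L` (induction: `𝟙_` and `W.T 1` are retracts of `full W (G.h X)`, `ABC.retractTensor`, `W.tateAdd`, `W.tateZero`).
`point`: `l = 0`.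
-/

set_option autoImplicit false
set_option linter.unusedSectionVars false

open CategoryTheory MonoidalCategory Limits
open Pool.Agent.Helper15.Murre Pool.Agent.Helper15.ABC

universe t w v u

namespace Pool.Agent.AbAlg

variable {C : Type u} [Category.{v} C] [Preadditive C] [Linear ℚ C]
  [MonoidalCategory C] [SymmetricCategory C] [MonoidalPreadditive C] [MonoidalLinear ℚ C]
  [RigidCategory C] [HasBinaryBiproducts C] {F : Type w} [Field F] {W : MotivicHomology C F}

private lemma ext_full {A B D M Q : C} (α : Q ⟶ M ⊗ ((A ⊞ B) ⊞ D))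
    (h1 : α ≫ M ◁ (biprod.fst ≫ biprod.fst) = 0) (h2 : α ≫ M ◁ (biprod.fst ≫ biprod.snd) = 0)
    (h3 : α ≫ M ◁ biprod.snd = 0) : α = 0 := by
  have h4 : 𝟙 ((A ⊞ B) ⊞ D) = ((biprod.fst ≫ biprod.fst) ≫ biprod.inl ≫ biprod.inl +
      (biprod.fst ≫ biprod.snd) ≫ biprod.inr ≫ biprod.inl + biprod.snd ≫ biprod.inr :
        (A ⊞ B) ⊞ D ⟶ (A ⊞ B) ⊞ D) := by
    have h5 : ((biprod.fst ≫ biprod.fst) ≫ biprod.inl ≫ biprod.inl +
      (biprod.fst ≫ biprod.snd) ≫ biprod.inr ≫ biprod.inl : (A ⊞ B) ⊞ D ⟶ (A ⊞ B) ⊞ D) =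
        biprod.fst ≫ ((biprod.fst ≫ biprod.inl + biprod.snd ≫ biprod.inr) ≫
          biprod.inl) := by
      simp only [Category.assoc, Preadditive.comp_add, Preadditive.add_comp]
    rw [h5, biprod.total, Category.id_comp, biprod.total]
  have h6 : α = α ≫ M ◁ (𝟙 ((A ⊞ B) ⊞ D)) := by simp
  rw [h6, h4, MonoidalPreadditive.whiskerLeft_add, MonoidalPreadditive.whiskerLeft_add,
    MonoidalCategory.whiskerLeft_comp _ (biprod.fst ≫ biprod.fst),
    MonoidalCategory.whiskerLeft_comp _ (biprod.fst ≫ biprod.snd),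
    MonoidalCategory.whiskerLeft_comp _ biprod.snd, Preadditive.comp_add, Preadditive.comp_add,
    reassoc_of% h1, reassoc_of% h2, reassoc_of% h3]
  simp

theorem bound (G : Curves.{t} W) (L : List G.Curve) (l : ℤ)
    (hl : l < 0 ∨ (L.length : ℤ) < l) (α : W.CH l (G.prod L)) : α = 0 := by
  induction L generalizing l with
  | nil => exact G.point l (by simp only [List.length_nil, Nat.cast_zero] at hl; omega) α
  | cons X L ih =>
    have hlen : ((X :: L).length : ℤ) = L.length + 1 := by simp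
    rw [hlen] at hl
    have hT : ∀ (n : ℤ) (_ : n = 0 ∨ n = 1) (β : W.CH l (G.prod L ⊗ W.T n)), β = 0 := by
      intro n hn β
      refine (topFam W).van_twist (fun γ _ => ih (l - n) (by omega) γ) β trivial
    have h1 : ∀ β : W.CH l (G.prod L ⊗ 𝟙_ C), β = 0 := by
      intro β
      have h2 := ih l (by omega) (β ≫ (ρ_ _).hom)
      have h3 := congrArg (· ≫ (ρ_ _).inv) h2
      simpa using h3
    have h2 : ∀ β : W.CH l (G.prod L ⊗ G.h X), β = 0 := by
      intro β
      obtain ⟨ξ, hξ⟩ := G.generic X (G.prod L) l β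
      have h3 := hξ (hT 1 (Or.inr rfl) _)
      clear hξ
      have h4 : ∀ γ ∈ {γ : W.CH l (G.prod L ⊗ G.h X) |
          ∃ (i : W.T 0 ⟶ G.h X) (β : W.CH l (G.prod L ⊗ W.T 0)), γ = β ≫ (G.prod L ◁ i)},
          γ = 0 := by
        rintro γ ⟨i, β, rfl⟩
        rw [hT 0 (Or.inl rfl) β, zero_comp]
      induction h3 using Submodule.span_induction with
      | mem x hx => exact h4 x hx
      | zero => rfl
      | add x y _ _ hx hy => rw [hx, hy, add_zero]
      | smul q x _ hx => rw [hx, smul_zero]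
    exact ext_full (M := G.prod L) α (h1 _) (h2 _) (hT 1 (Or.inr rfl) _)

/-- isomorphic objects have isomorphic duals -/
private noncomputable def dIso {A B : C} (e : A ≅ B) : Aᘁ ≅ Bᘁ where
  hom := e.invᘁ
  inv := e.homᘁ
  hom_inv_id := by rw [← comp_rightAdjointMate, e.hom_inv_id, rightAdjointMate_id]
  inv_hom_id := by rw [← comp_rightAdjointMate, e.inv_hom_id, rightAdjointMate_id]

private noncomputable def dBip (A B : C) : (A ⊞ B)ᘁ ≅ Aᘁ ⊞ Bᘁ where
  hom := biprod.lift (biprod.inlᘁ) (biprod.inrᘁ)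
  inv := biprod.desc (biprod.fstᘁ) (biprod.sndᘁ)
  hom_inv_id := by
    rw [biprod.lift_desc, ← comp_rightAdjointMate, ← comp_rightAdjointMate, ← mate_add,
      biprod.total, rightAdjointMate_id]
  inv_hom_id := by
    apply biprod.hom_ext' <;> apply biprod.hom_ext
    · simp only [biprod.inl_desc_assoc, Category.assoc, biprod.lift_fst, Category.comp_id,
        biprod.inl_fst]
      rw [← comp_rightAdjointMate, biprod.inl_fst, rightAdjointMate_id]
    · simp only [biprod.inl_desc_assoc, Category.assoc, biprod.lift_snd, Category.comp_id,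
        biprod.inl_snd]
      rw [← comp_rightAdjointMate, biprod.inr_fst, mate_zero]
    · simp only [biprod.inr_desc_assoc, Category.assoc, biprod.lift_fst, Category.comp_id,
        biprod.inr_fst]
      rw [← comp_rightAdjointMate, biprod.inl_snd, mate_zero]
    · simp only [biprod.inr_desc_assoc, Category.assoc, biprod.lift_snd, Category.comp_id,
        biprod.inr_snd]
      rw [← comp_rightAdjointMate, biprod.inr_snd, rightAdjointMate_id]

private noncomputable def tBip (A B Z : C) : (A ⊞ B) ⊗ Z ≅ A ⊗ Z ⊞ B ⊗ Z where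
  hom := biprod.lift (biprod.fst ▷ Z) (biprod.snd ▷ Z)
  inv := biprod.desc (biprod.inl ▷ Z) (biprod.inr ▷ Z)
  hom_inv_id := by
    rw [biprod.lift_desc, ← comp_whiskerRight, ← comp_whiskerRight,
      ← MonoidalPreadditive.add_whiskerRight, biprod.total, id_whiskerRight]
  inv_hom_id := by
    apply biprod.hom_ext' <;> apply biprod.hom_ext
    · simp only [biprod.inl_desc_assoc, Category.assoc, biprod.lift_fst, Category.comp_id,
        biprod.inl_fst]
      rw [← comp_whiskerRight, biprod.inl_fst, id_whiskerRight]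
    · simp only [biprod.inl_desc_assoc, Category.assoc, biprod.lift_snd, Category.comp_id,
        biprod.inl_snd]
      rw [← comp_whiskerRight, biprod.inl_snd, MonoidalPreadditive.zero_whiskerRight]
    · simp only [biprod.inr_desc_assoc, Category.assoc, biprod.lift_fst, Category.comp_id,
        biprod.inr_fst]
      rw [← comp_whiskerRight, biprod.inr_fst, MonoidalPreadditive.zero_whiskerRight]
    · simp only [biprod.inr_desc_assoc, Category.assoc, biprod.lift_snd, Category.comp_id,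
        biprod.inr_snd]
      rw [← comp_whiskerRight, biprod.inr_snd, id_whiskerRight]

variable (W) in
private noncomputable def dUnit :
    @HasRightDual.rightDual C _ _ (𝟙_ C) (RightRigidCategory.rightDual (𝟙_ C)) ≅ 𝟙_ C :=
  dIso W.tateZero.symm ≪≫ W.tateDual 0 ≪≫ eqToIso (by rw [neg_zero]) ≪≫ W.tateZero

private noncomputable def perm (A B D : C) : (A ⊞ B) ⊞ D ≅ (D ⊞ B) ⊞ A :=
  biprod.associator A B D ≪≫ biprod.braiding A (B ⊞ D) ≪≫
    biprod.mapIso (biprod.braiding B D) (Iso.refl A)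

private lemma dual_full (G : Curves.{t} W) (X : G.Curve) :
    Nonempty ((full W (G.h X))ᘁ ≅ full W (G.h X) ⊗ W.T (-1)) := by
  obtain ⟨d⟩ := G.dual X
  have e1 : (full W (G.h X))ᘁ ≅ (𝟙_ C ⊞ G.h X ⊗ W.T (-1)) ⊞ W.T (-1) :=
    dBip _ _ ≪≫ biprod.mapIso (dBip _ _ ≪≫ biprod.mapIso (dUnit W) d) (W.tateDual 1)
  have e2 : full W (G.h X) ⊗ W.T (-1) ≅ (W.T (-1) ⊞ G.h X ⊗ W.T (-1)) ⊞ 𝟙_ C :=
    tBip _ _ _ ≪≫ biprod.mapIso (tBip _ _ _ ≪≫ biprod.mapIso (λ_ _) (Iso.refl _)) (W.tateInv 1)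
  exact ⟨e1 ≪≫ perm _ _ _ ≪≫ e2.symm⟩

theorem dual_prod (G : Curves.{t} W) (L : List G.Curve) :
    Nonempty ((G.prod L)ᘁ ≅ G.prod L ⊗ W.T (-(L.length : ℤ))) := by
  induction L with
  | nil =>
    have h1 : W.T (-((([] : List G.Curve).length : ℕ) : ℤ)) = W.T 0 := by simp
    exact ⟨dUnit W ≪≫ (ρ_ _).symm ≪≫ whiskerLeftIso (𝟙_ C) (W.tateZero.symm ≪≫ eqToIso h1.symm)⟩
  | cons X L ih =>
    obtain ⟨e⟩ := ih
    obtain ⟨f⟩ := dual_full G X
    have h1 : W.T (-(((X :: L).length : ℕ) : ℤ)) = W.T (-1 + -((L.length : ℕ) : ℤ)) := by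
      congr 1
      simp only [List.length_cons]
      push_cast
      ring
    refine ⟨rightDualTensorIso (G.prod L) (full W (G.h X)) ≪≫ (whiskerRightIso f _) ≪≫
      whiskerLeftIso _ e ≪≫ twistTensor W (full W (G.h X)) (G.prod L) (-1) (-(L.length : ℤ)) ≪≫
      whiskerRightIso (β_ _ _) _ ≪≫ whiskerLeftIso _ (eqToIso h1.symm)⟩

private lemma prod_append (G : Curves.{t} W) (L' L : List G.Curve) :
    Nonempty (G.prod (L' ++ L) ≅ G.prod L ⊗ G.prod L') := by
  induction L' with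
  | nil => exact ⟨(ρ_ _).symm⟩
  | cons X L' ih =>
    obtain ⟨e⟩ := ih
    exact ⟨whiskerRightIso e (full W (G.h X)) ≪≫ α_ _ _ _⟩

private noncomputable def unitR (A B D : C) : Retract A ((A ⊞ B) ⊞ D) where
  i := biprod.inl ≫ biprod.inl
  r := biprod.fst ≫ biprod.fst
  retract := by simp

private noncomputable def tateR (A B D : C) : Retract D ((A ⊞ B) ⊞ D) where
  i := biprod.inr
  r := biprod.snd
  retract := by simp

private lemma unit_full (G : Curves.{t} W) (X : G.Curve) :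
    Nonempty (Retract (𝟙_ C) (full W (G.h X))) :=
  ⟨unitR (𝟙_ C) (G.h X) (W.T 1)⟩

private lemma tate_full (G : Curves.{t} W) (X : G.Curve) :
    Nonempty (Retract (W.T 1) (full W (G.h X))) :=
  ⟨tateR (𝟙_ C) (G.h X) (W.T 1)⟩

private lemma tate_prod (G : Curves.{t} W) (L : List G.Curve) (l : ℤ) (h0 : 0 ≤ l)
    (h1 : l ≤ (L.length : ℤ)) : Nonempty (Retract (W.T l) (G.prod L)) := by
  induction L generalizing l with
  | nil =>
    have h2 : l = 0 := by simp only [List.length_nil, Nat.cast_zero] at h1; omega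
    subst h2
    exact ⟨retractIso W.tateZero⟩
  | cons X L ih =>
    have hlen : ((X :: L).length : ℤ) = L.length + 1 := by simp
    rw [hlen] at h1
    rcases le_or_gt l (L.length : ℤ) with h2 | h2
    · obtain ⟨R⟩ := ih l h0 h2
      obtain ⟨S⟩ := unit_full G X
      exact ⟨(retractIso (ρ_ _).symm).trans (retractTensor R S)⟩
    · have h3 : l = (L.length : ℤ) + 1 := by omega
      subst h3
      obtain ⟨R⟩ := ih (L.length : ℤ) (by omega) le_rfl
      obtain ⟨S⟩ := tate_full G X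
      exact ⟨(retractIso (W.tateAdd _ _)).trans (retractTensor R S)⟩

theorem productClass (G : Curves.{t} W) : ProductClass W G.prod where
  prod := fun X Y => ⟨Y ++ X, prod_append G Y X⟩
  dual := fun X => ⟨-(X.length : ℤ), dual_prod G X⟩
  tate := fun X l => by
    by_cases h : l < 0 ∨ (X.length : ℤ) < l
    · exact Or.inl (fun α => bound G X l h α)
    · exact Or.inr (tate_prod G X l (by omega) (by omega))
  point := fun X => ⟨0, tate_prod G X 0 le_rfl (by omega)⟩

end Pool.Agent.AbAlg
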