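import Pool.Agent.AbAlg.Fam

/-!
# AbAlg-Std: the Chow-Kuenneth decomposition of a product of curves

`tens_retract`: `G.h X` is a retract of `full W (G.h X)` (`biprod.inr ≫ biprod.inl`, `biprod.fst ≫ biprod.snd`), then `ABC.retractTensor` and induction.
`tens_pure`: induction; `𝟙_`: `W.unit_mem` (degree `0`); `W.tensor_range (𝟙 _) (𝟙 _) a b` as in `vanish_of_pure` (ABC/ClassNil).
`van_of_weakNil`: `e = R.r ≫ R.i` is idempotent and zero on `H_j(P)` for `j ≥ 2 l > w` (`R.r` maps `gr P j` to `gr N j`, which is zero for `j ≠ w`: `W.eq_zero_of_mem`); so `(α ≫ R.i) ≫ pw e m = 0` for some `m`, and it is `α ≫ R.i`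
(`pw_self` in ABC/ClassNil); compose with `R.r`.  `van_of_strongNil`: the same.
`std_CK`: inductive predicate `Std r M`: `M` is (up to isomorphism) a finite direct sum of objects `tens G.h L ⊗ W.T m`, `L.length ≤ r`:
constructors `base`, `sum : Std r M → Std r N → Std r (M ⊞ N)`, `iso : (M ≅ N) → Std r M → Std r N`.
(a) `Std L.length (G.prod L)`: induction on `L`; `M ⊗ ((𝟙_ ⊞ Y) ⊞ W.T 1) ≅ ((M ⊗ 𝟙_) ⊞ (M ⊗ Y)) ⊞ (M ⊗ W.T 1)` (isomorphism `M ⊗ (A ⊞ B) ≅ (M ⊗ A) ⊞ (M ⊗ B)`: `biprod.lift (M ◁ fst) (M ◁ snd)`, `biprod.desc (M ◁ inl) (M ◁ inr)`,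
`MonoidalPreadditive.whiskerLeft_add`), and by induction on `Std r M`: `Std (r+1) (M ⊗ G.h X)` (`(tens L ⊗ T m) ⊗ G.h X ≅ tens (X :: L) ⊗ T m`), `Std r (M ⊗ W.T n)`.
(b) by induction on `Std r M`, `r ≤ L.length`: there is a decomposition `D` of `M` with `D.MurreB ∧ (Q → D.MurreD)`.
Base: `CK.single _ (L'.length + 2 m)` (purity: `tens_pure`, `W.tensor_range`); `CK.MurreB_iff`, `CK.MurreD_iff`; the classes of `tens G.h L' ⊗ W.T m` vanish by `(topFam W).van_twist` and `hB`, resp. `(homFam W).van_twist` and `hD`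
(if `L'.length + 2 m = 2 l` then `L'.length = 2 (l - m).toNat`).  Sum: `CK.biprod`, `CK.biprod_p`.  Iso: `CK.ofIso`.
-/

set_option autoImplicit false
set_option linter.unusedSectionVars false

open CategoryTheory MonoidalCategory Limits
open Pool.Agent.Helper15.Murre Pool.Agent.Helper15.ABC

universe t w v u

namespace Pool.Agent.AbAlg

variable {C : Type u} [Category.{v} C] [Preadditive C] [Linear ℚ C]
  [MonoidalCategory C] [SymmetricCategory C] [MonoidalPreadditive C] [MonoidalLinear ℚ C]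
  [RigidCategory C] [HasBinaryBiproducts C] {F : Type w} [Field F] {W : MotivicHomology C F}

theorem tens_retract (G : Curves.{t} W) (L : List G.Curve) :
    Nonempty (Retract (tens G.h L) (G.prod L)) := by
  induction L with
  | nil => exact ⟨Retract.refl _⟩
  | cons X L ih =>
    obtain ⟨R⟩ := ih
    let S : Retract (G.h X) ((𝟙_ C ⊞ G.h X) ⊞ W.T 1) :=
      { i := biprod.inr ≫ biprod.inl
        r := biprod.fst ≫ biprod.snd
        retract := by simp }
    exact ⟨retractTensor R S⟩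

theorem tens_pure (G : Curves.{t} W) (L : List G.Curve) :
    W.gr (tens G.h L) (L.length : ℤ) = ⊤ := by
  induction L with
  | nil =>
    rw [eq_top_iff]
    intro x _
    exact W.unit_mem x
  | cons X L ih =>
    have key : ∀ x : W.H.obj (tens G.h L ⊗ G.h X),
        x ∈ W.gr (tens G.h L ⊗ G.h X) ((L.length : ℤ) + 1) := by
      intro x
      have := W.tensor_range (𝟙 (tens G.h L)) (𝟙 (G.h X)) (L.length : ℤ) 1
        (fun x => by rw [ih]; trivial) (fun x => by rw [G.odd]; trivial) x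
      rwa [MonoidalCategory.id_tensorHom_id, W.map_id_apply] at this
    rw [eq_top_iff]
    intro x _
    have h2 : (((X :: L).length : ℕ) : ℤ) = (L.length : ℤ) + 1 := by
      push_cast [List.length_cons]
      ring
    rw [h2]
    exact key x

private theorem std_retract_zero {P N : C} (R : Retract N P) (k : ℤ) (hk : W.gr N k = ⊤) (j : ℤ)
    (hj : j ≠ k) (x : W.H.obj P) (hx : x ∈ W.gr P j) : (W.H.map (R.r ≫ R.i)).hom x = 0 := by
  have h1 : (W.H.map R.r).hom x = 0 :=
    W.eq_zero_of_mem hj (W.map_gr R.r _ _ hx) (by rw [hk]; trivial)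
  rw [W.map_comp_apply, h1, map_zero]

private theorem std_retract_idem {P N : C} (R : Retract N P) :
    (R.r ≫ R.i) ≫ (R.r ≫ R.i) = R.r ≫ R.i := by
  rw [Category.assoc, R.retract_assoc]

private theorem std_retract_cancel {P N : C} (R : Retract N P) {l : ℤ} (α : W.CH l N)
    (m : ℕ) (hm : (α ≫ R.i) ≫ Pool.Agent.Helper58.MAD.pw (R.r ≫ R.i) m = 0) : α = 0 := by
  have h1 : (α ≫ R.i) ≫ (R.r ≫ R.i) = α ≫ R.i := by
    rw [Category.assoc, R.retract_assoc]
  have h2 := pw_self (W := W) (std_retract_idem R) (α ≫ R.i) h1 m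
  rw [hm] at h2
  have h3 := congrArg (· ≫ R.r) h2
  simpa using h3.symm

theorem van_of_weakNil {P N : C} (R : Retract N P) (k : ℤ) (hk : W.gr N k = ⊤)
    (h : WeakNil W P) (l : ℤ) (hl : k < 2 * l) (α : W.CH l N) : α = 0 := by
  obtain ⟨m, hm⟩ := h (R.r ≫ R.i) l
    (fun j hj x hx => std_retract_zero R k hk j (by omega) x hx) (α ≫ R.i)
  exact std_retract_cancel R α m hm

theorem van_of_strongNil {P N : C} (R : Retract N P) (k : ℤ) (hk : W.gr N k = ⊤)
    (h : Pool.Agent.Helper88.MADR.StrongNil W P) (l : ℤ) (hl : k ≤ 2 * l) (α : W.CH l N)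
    (hα : α ∈ W.CHhom l N) : α = 0 := by
  have hα' : W.H.map α = 0 := hα
  obtain ⟨m, hm⟩ := h (R.r ≫ R.i) l
    (fun j hj x hx => std_retract_zero R k hk j (by omega) x hx) (α ≫ R.i)
    (by rw [Functor.map_comp, hα', zero_comp])
  exact std_retract_cancel R α m hm

/-- finite direct sums of twists of products of at most `r` pieces `h₁` -/
private inductive StdObj (G : Curves.{t} W) (r : ℕ) : C → Prop
  | base (L : List G.Curve) (m : ℤ) (h : L.length ≤ r) : StdObj G r (tens G.h L ⊗ W.T m)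
  | sum {M N : C} : StdObj G r M → StdObj G r N → StdObj G r (M ⊞ N)
  | iso {M N : C} (e : M ≅ N) : StdObj G r M → StdObj G r N

private theorem std_mono {G : Curves.{t} W} {r s : ℕ} (hrs : r ≤ s) {M : C} (h : StdObj G r M) :
    StdObj G s M := by
  induction h with
  | base L m h => exact StdObj.base L m (h.trans hrs)
  | sum _ _ h1 h2 => exact StdObj.sum h1 h2
  | iso e _ h1 => exact StdObj.iso e h1

/-- distributivity -/
private noncomputable def stdLeft (M A B : C) : M ⊗ (A ⊞ B) ≅ (M ⊗ A) ⊞ (M ⊗ B) where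
  hom := biprod.lift (M ◁ biprod.fst) (M ◁ biprod.snd)
  inv := biprod.desc (M ◁ biprod.inl) (M ◁ biprod.inr)
  hom_inv_id := by
    rw [biprod.lift_desc, ← MonoidalCategory.whiskerLeft_comp,
      ← MonoidalCategory.whiskerLeft_comp, ← MonoidalPreadditive.whiskerLeft_add, biprod.total,
      MonoidalCategory.whiskerLeft_id]
  inv_hom_id := by
    apply biprod.hom_ext' <;> apply biprod.hom_ext <;>
      simp [← MonoidalCategory.whiskerLeft_comp]

/-- distributivity -/
private noncomputable def stdRight (A B M : C) : (A ⊞ B) ⊗ M ≅ (A ⊗ M) ⊞ (B ⊗ M) where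
  hom := biprod.lift (biprod.fst ▷ M) (biprod.snd ▷ M)
  inv := biprod.desc (biprod.inl ▷ M) (biprod.inr ▷ M)
  hom_inv_id := by
    rw [biprod.lift_desc, ← MonoidalCategory.comp_whiskerRight,
      ← MonoidalCategory.comp_whiskerRight, ← MonoidalPreadditive.add_whiskerRight, biprod.total,
      MonoidalCategory.id_whiskerRight]
  inv_hom_id := by
    apply biprod.hom_ext' <;> apply biprod.hom_ext <;>
      simp [← MonoidalCategory.comp_whiskerRight]

private theorem std_curve {G : Curves.{t} W} {r : ℕ} {M : C} (h : StdObj G r M) (X : G.Curve) :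
    StdObj G (r + 1) (M ⊗ G.h X) := by
  induction h with
  | base L m h =>
    refine StdObj.iso ?_ (StdObj.base (X :: L) m (by simpa using h))
    exact (α_ (tens G.h L) (G.h X) (W.T m)) ≪≫ whiskerLeftIso _ (β_ (G.h X) (W.T m)) ≪≫
      (α_ (tens G.h L) (W.T m) (G.h X)).symm
  | sum _ _ h1 h2 => exact StdObj.iso (stdRight _ _ _).symm (StdObj.sum h1 h2)
  | iso e _ h1 => exact StdObj.iso (whiskerRightIso e (G.h X)) h1

private theorem std_twist {G : Curves.{t} W} {r : ℕ} {M : C} (h : StdObj G r M) (n : ℤ) :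
    StdObj G r (M ⊗ W.T n) := by
  induction h with
  | base L m h =>
    refine StdObj.iso ?_ (StdObj.base L (m + n) h)
    exact whiskerLeftIso _ (W.tateAdd m n) ≪≫ (α_ (tens G.h L) (W.T m) (W.T n)).symm
  | sum _ _ h1 h2 => exact StdObj.iso (stdRight _ _ _).symm (StdObj.sum h1 h2)
  | iso e _ h1 => exact StdObj.iso (whiskerRightIso e (W.T n)) h1

private theorem std_full {G : Curves.{t} W} {r : ℕ} {M : C} (h : StdObj G r M) (X : G.Curve) :
    StdObj G (r + 1) (M ⊗ full W (G.h X)) := by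
  have h1 : StdObj G (r + 1) (M ⊗ 𝟙_ C) :=
    StdObj.iso (ρ_ M).symm (std_mono (Nat.le_succ r) h)
  have h2 : StdObj G (r + 1) (M ⊗ G.h X) := std_curve h X
  have h3 : StdObj G (r + 1) (M ⊗ W.T 1) := std_mono (Nat.le_succ r) (std_twist h 1)
  have h4 : StdObj G (r + 1) (M ⊗ (𝟙_ C ⊞ G.h X)) :=
    StdObj.iso (stdLeft _ _ _).symm (StdObj.sum h1 h2)
  exact StdObj.iso (stdLeft _ _ _).symm (StdObj.sum h4 h3)

private theorem std_prod (G : Curves.{t} W) (L : List G.Curve) :
    StdObj G L.length (G.prod L) := by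
  induction L with
  | nil =>
    refine StdObj.iso ?_ (StdObj.base ([] : List G.Curve) 0 (Nat.zero_le _))
    exact whiskerLeftIso (𝟙_ C) W.tateZero ≪≫ ρ_ (𝟙_ C)
  | cons X L ih => exact std_full ih X

private theorem std_single_p (N : C) (i j : ℤ) (h : ∀ x : W.H.obj N, x ∈ W.gr N i) :
    (CK.single N i h).p j = if j = i then 𝟙 N else 0 := rfl

private theorem std_base (G : Curves.{t} W) (r : ℕ) (Q : Prop)
    (hB : ∀ L' : List G.Curve, L'.length ≤ r → ∀ l : ℤ, (L'.length : ℤ) < 2 * l →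
      ∀ α : W.CH l (tens G.h L'), α = 0)
    (hD : Q → ∀ (L' : List G.Curve) (m : ℕ), L'.length = 2 * m → L'.length ≤ r →
      ∀ α ∈ W.CHhom (m : ℤ) (tens G.h L'), α = 0) (L : List G.Curve) (m : ℤ)
    (hL : L.length ≤ r) :
    ∃ D : CK W (tens G.h L ⊗ W.T m), D.MurreB ∧ (Q → D.MurreD) := by
  have hp : ∀ x : W.H.obj (tens G.h L ⊗ W.T m),
      x ∈ W.gr (tens G.h L ⊗ W.T m) ((L.length : ℤ) + 2 * m) := by
    intro x
    have := W.tensor_range (𝟙 (tens G.h L)) (𝟙 (W.T m)) (L.length : ℤ) (2 * m)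
      (fun x => by rw [tens_pure]; trivial) (fun x => W.map_gr _ _ _ (W.mem_gr_tate _ x)) x
    rwa [MonoidalCategory.id_tensorHom_id, W.map_id_apply] at this
  refine ⟨CK.single _ _ hp, ?_, ?_⟩
  · rw [CK.MurreB_iff]
    intro l i hi α
    rw [std_single_p]
    split_ifs with h1
    · subst h1
      have h2 : α = 0 := (topFam W).van_twist
        (fun β _ => hB L hL (l - m) (by omega) β) α trivial
      rw [h2, zero_comp]
    · rw [comp_zero]
  · intro hQ
    rw [CK.MurreD_iff]
    intro l α h1 h2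
    rw [std_single_p] at h1
    split_ifs at h1 with h3
    · refine (homFam W).van_twist (fun β hβ => ?_) α h2
      have h4 : ∀ (k : ℤ) (_ : k = ((l - m).toNat : ℤ)) (γ : W.CH k (tens G.h L)),
          γ ∈ W.CHhom k (tens G.h L) → γ = 0 := by
        rintro _ rfl γ hγ
        exact hD hQ L (l - m).toNat (by omega) hL γ hγ
      exact h4 (l - m) (by omega) β hβ
    · rw [← h1, comp_zero]

private theorem std_biprod {M N : C} (Q : Prop) (h : ∃ D : CK W M, D.MurreB ∧ (Q → D.MurreD))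
    (h' : ∃ D : CK W N, D.MurreB ∧ (Q → D.MurreD)) :
    ∃ D : CK W (M ⊞ N), D.MurreB ∧ (Q → D.MurreD) := by
  obtain ⟨D, hD1, hD2⟩ := h
  obtain ⟨E, hE1, hE2⟩ := h'
  refine ⟨D.biprod E, ?_, ?_⟩
  · rw [CK.MurreB_iff] at hD1 hE1 ⊢
    intro l i hi α
    rw [CK.biprod_p]
    apply biprod.hom_ext
    · have := hD1 l i hi (α ≫ biprod.fst)
      simpa using this
    · have := hE1 l i hi (α ≫ biprod.snd)
      simpa using this
  · intro hQ
    have hD3 := hD2 hQ
    have hE3 := hE2 hQ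
    rw [CK.MurreD_iff'] at hD3 hE3 ⊢
    intro l α hα
    rw [CK.biprod_p] at hα ⊢
    apply biprod.hom_ext
    · have := hD3 l (α ≫ biprod.fst) (by
        have h1 := congrArg (· ≫ W.H.map biprod.fst) hα
        simp only [← Functor.map_comp, zero_comp] at h1
        simpa using h1)
      simpa using this
    · have := hE3 l (α ≫ biprod.snd) (by
        have h1 := congrArg (· ≫ W.H.map biprod.snd) hα
        simp only [← Functor.map_comp, zero_comp] at h1
        simpa using h1)
      simpa using this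

private theorem std_iso {M N : C} (e : M ≅ N) (Q : Prop)
    (h : ∃ D : CK W M, D.MurreB ∧ (Q → D.MurreD)) :
    ∃ D : CK W N, D.MurreB ∧ (Q → D.MurreD) := by
  obtain ⟨D, hD1, hD2⟩ := h
  have h1 : D.Eqv (CK.ofIso e D) := ⟨e, fun i => by
    change D.p i ≫ e.hom = e.hom ≫ e.inv ≫ D.p i ≫ e.hom
    rw [e.hom_inv_id_assoc]⟩
  exact ⟨CK.ofIso e D, h1.murreB hD1, fun hQ => h1.murreD (hD2 hQ)⟩

theorem std_CK (G : Curves.{t} W) (L : List G.Curve) (Q : Prop)
    (hB : ∀ L' : List G.Curve, L'.length ≤ L.length → ∀ l : ℤ, (L'.length : ℤ) < 2 * l →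
      ∀ α : W.CH l (tens G.h L'), α = 0)
    (hD : Q → ∀ (L' : List G.Curve) (m : ℕ), L'.length = 2 * m → L'.length ≤ L.length →
      ∀ α ∈ W.CHhom (m : ℤ) (tens G.h L'), α = 0) :
    ∃ D : CK W (G.prod L), D.MurreB ∧ (Q → D.MurreD) := by
  have key : ∀ M : C, StdObj G L.length M → ∃ D : CK W M, D.MurreB ∧ (Q → D.MurreD) := by
    intro M hM
    induction hM with
    | base L' m h => exact std_base G L.length Q hB hD L' m h
    | sum _ _ h1 h2 => exact std_biprod Q h1 h2
    | iso e _ h1 => exact std_iso e Q h1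
  exact key _ (std_prod G L)

end Pool.Agent.AbAlg
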