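import Pool.Agent.AbAlg.Fam

/-!
# AbAlg-Symm: symmetric tensors of `h₁` of products of Jacobians

`h_k(A) = Sym^k h₁(A)`; the Chow groups of `Sym^k h₁(A)`, `A = J(X) × ∏ J(Y)`, and of `h₁(X₁) ⊗ ⋯ ⊗ h₁(X_k)`.

PLAN.  Define `tmap (f : A ⟶ B) : ∀ n, tpow A n ⟶ tpow B n` (`tmap f 0 = 𝟙 _`, `tmap f (n+1) = tmap f n ⊗ₘ f`); it is functorial, and natural for `sw`, `asym`:
`tmap f (n+2) ...`: `sw (tpow A n) A ≫ tmap f (n+2) = tmap f (n+2) ≫ sw (tpow B n) B` and `asym ε A n ≫ tmap f n = tmap f n ≫ asym ε B n` (induction with `asym_succ` or the definition of `asym`).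
(1) KEY: for `a : A ⟶ B`, `b : B ⟶ A`, `a ≫ b = 𝟙`, `c : Y ⟶ B`, `d : B ⟶ Y`, `c ≫ d = 𝟙`, `a ≫ d = 0`, `c ≫ b = 0`:
`(tmap a k ⊗ₘ c) ≫ asym (-1) B (k+1) ≫ (tmap b k ⊗ₘ d) = ((k:ℚ)+1)⁻¹ • (asym (-1) A k ▷ Y)`.
`k = 0`: clear. `k = n+1`: the definition of `asym (-1) B (n+2)` has two terms; the first gives `asym (-1) A (n+1) ▷ Y` by naturality; the second is zero, because
`(tmap a (n+1) ⊗ₘ c) ≫ (asym ▷ B) ≫ sw (tpow B n) B ≫ (asym ▷ B) ≫ (tmap b (n+1) ⊗ₘ d) = (asym_A ▷ Y) ≫ ((tmap a n ⊗ₘ a) ⊗ₘ c) ≫ sw ≫ ((tmap b n ⊗ₘ b) ⊗ₘ d) ≫ (asym_A ▷ Y)`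
and the middle part is `(tmap a n ≫ tmap b n) ⊗ (a ⊗ c ≫ β ≫ b ⊗ d)` with `(a ⊗ₘ c) ≫ β ≫ (b ⊗ₘ d) = (a ≫ d ..)(c ≫ b ..) = 0`.
(2) For a curve `X₀` and a list `L` of length `k` there are `U : tens G.h L ⟶ tpow (G.jac X₀ L) k`, `V` back, with `U ≫ asym (-1) _ k ≫ V = q • 𝟙`, `q ≠ 0` (induction on `L`: `a = biprod.inl`, `b = biprod.fst`, `c = biprod.inr`, `d = biprod.snd`,
`U' = (U ▷ G.h Y) ≫ (tmap a k ⊗ₘ c)`, `V' = (tmap b k ⊗ₘ d) ≫ (V ▷ G.h Y)`).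
(→): for `α ∈ Z l (tens G.h L)` apply the hypothesis to `α ≫ U ≫ asym (-1) _ k`, which is symmetric by `asym_props` with `ε = -1` (for `i` with `¬ i + 1 < k` one has `adj M k i = 𝟙`, prove this by induction from the definition of `adj`),
hence zero, and compose with `V`.  (`X₀` from `G.genus`.)
(←): prove for ALL `α ∈ Z l (tpow (G.jac X L) k)`: by induction on `k`: for every object `M`, if `∀ L', L'.length = k → ∀ α ∈ Z l (tens G.h L' ⊗ M), α = 0` then `∀ α ∈ Z l (tpow (G.jac X L) k ⊗ M), α = 0`.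
Step: `tpow J (k+1) ⊗ M ≅ tpow J k ⊗ (J ⊗ M)`, use the induction hypothesis with `J ⊗ M`; for `α ∈ Z l (tens G.h L' ⊗ (J ⊗ M))`, `𝟙 J` is a sum of maps factoring through some `G.h Y` (induction on `L` in `jac`, `biprod.total`), and
`tens G.h L' ⊗ (G.h Y ⊗ M) ≅ tens G.h (Y :: L') ⊗ M`.  At the end take `M = 𝟙_`.
-/

set_option autoImplicit false
set_option linter.unusedSectionVars false

open CategoryTheory MonoidalCategory Limits
open Pool.Agent.Helper15.Murre Pool.Agent.Helper15.ABC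

universe t w v u

namespace Pool.Agent.AbAlg

section gen

variable {C : Type u} [Category.{v} C] [Preadditive C] [Linear ℚ C]
  [MonoidalCategory C] [SymmetricCategory C]

private def tmap {A B : C} (f : A ⟶ B) : (n : ℕ) → (tpow A n ⟶ tpow B n)
  | 0 => 𝟙 _
  | n + 1 => tmap f n ⊗ₘ f

omit [Preadditive C] [Linear ℚ C] [SymmetricCategory C] in
private lemma tmap_comp {A B D : C} (f : A ⟶ B) (g : B ⟶ D) :
    ∀ n, tmap f n ≫ tmap g n = tmap (f ≫ g) n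
  | 0 => Category.id_comp _
  | n + 1 => by
    change (tmap f n ⊗ₘ f) ≫ (tmap g n ⊗ₘ g) = (tmap (f ≫ g) n ⊗ₘ (f ≫ g))
    rw [tensorHom_comp_tensorHom, tmap_comp]

omit [Preadditive C] [Linear ℚ C] [SymmetricCategory C] in
private lemma tmap_id (A : C) : ∀ n, tmap (𝟙 A) n = 𝟙 _
  | 0 => rfl
  | n + 1 => by
    change (tmap (𝟙 A) n ⊗ₘ 𝟙 A) = 𝟙 _
    rw [tmap_id, id_tensorHom_id]

/-- the exchange of the last two factors -/
private def swg (X M N : C) : (X ⊗ M) ⊗ N ⟶ (X ⊗ N) ⊗ M :=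
  (α_ X M N).hom ≫ (X ◁ (β_ M N).hom) ≫ (α_ X N M).inv

omit [Preadditive C] [Linear ℚ C] in
private lemma swg_nat {X Y A B A' B' : C} (F : X ⟶ Y) (f : A ⟶ A') (g : B ⟶ B') :
    swg X A B ≫ ((F ⊗ₘ g) ⊗ₘ f) = ((F ⊗ₘ f) ⊗ₘ g) ≫ swg Y A' B' := by
  unfold swg
  simp only [Category.assoc]
  rw [← associator_inv_naturality, associator_naturality_assoc]
  simp only [← id_tensorHom, tensorHom_comp_tensorHom_assoc, Category.comp_id, Category.id_comp,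
    BraidedCategory.braiding_naturality]

private lemma asym_tmap (ε : ℚ) {A B : C} (f : A ⟶ B) : ∀ n : ℕ,
    asym ε A n ≫ tmap f n = tmap f n ≫ asym ε B n
  | 0 => (Category.id_comp _).trans (Category.comp_id _).symm
  | 1 => (Category.id_comp _).trans (Category.comp_id _).symm
  | n + 2 => by
    have ih := asym_tmap ε f (n + 1)
    have h1 : asym ε A (n + 1) ▷ A ≫ tmap f (n + 2) = tmap f (n + 2) ≫ asym ε B (n + 1) ▷ B := by
      change asym ε A (n + 1) ▷ A ≫ (tmap f (n + 1) ⊗ₘ f) = (tmap f (n + 1) ⊗ₘ f) ≫ _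
      rw [← tensorHom_id, ← tensorHom_id]
      simp only [tensorHom_comp_tensorHom, Category.comp_id, Category.id_comp, ih]
    have h2 : sw (tpow A n) A ≫ tmap f (n + 2) = tmap f (n + 2) ≫ sw (tpow B n) B :=
      swg_nat (tmap f n) f f
    have h3 : asym ε A (n + 2) = ((n : ℚ) + 2)⁻¹ • (asym ε A (n + 1) ▷ A -
      (((n : ℚ) + 1) * ε) • ((asym ε A (n + 1) ▷ A) ≫ sw (tpow A n) A ≫
        (asym ε A (n + 1) ▷ A))) := rfl
    have h4 : asym ε B (n + 2) = ((n : ℚ) + 2)⁻¹ • (asym ε B (n + 1) ▷ B -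
      (((n : ℚ) + 1) * ε) • ((asym ε B (n + 1) ▷ B) ≫ sw (tpow B n) B ≫
        (asym ε B (n + 1) ▷ B))) := rfl
    rw [h3, h4, Linear.smul_comp, Linear.comp_smul, Preadditive.sub_comp, Preadditive.comp_sub,
      Linear.smul_comp, Linear.comp_smul, h1]
    simp only [Category.assoc]
    rw [h1, reassoc_of% h2, reassoc_of% h1]

private lemma key_sym [MonoidalPreadditive C] [MonoidalLinear ℚ C] {A B Y : C}
    (a : A ⟶ B) (b : B ⟶ A) (c : Y ⟶ B) (d : B ⟶ Y)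
    (hab : a ≫ b = 𝟙 A) (hcd : c ≫ d = 𝟙 Y) (had : a ≫ d = 0) : ∀ k : ℕ,
    (tmap a k ⊗ₘ c) ≫ asym (-1) B (k + 1) ≫ (tmap b k ⊗ₘ d) =
      ((k : ℚ) + 1)⁻¹ • (asym (-1) A k ▷ Y)
  | 0 => by
    change (𝟙 (𝟙_ C) ⊗ₘ c) ≫ 𝟙 (𝟙_ C ⊗ B) ≫ (𝟙 (𝟙_ C) ⊗ₘ d) =
      (((0 : ℕ) : ℚ) + 1)⁻¹ • (𝟙 (𝟙_ C) ▷ Y)
    rw [Category.id_comp, tensorHom_comp_tensorHom, hcd, Category.comp_id, id_tensorHom_id,
      id_whiskerRight]
    simp
  | n + 1 => by
    have hε : ((-1 : ℚ)) * (-1) = 1 := by norm_num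
    have ha := asym_tmap (-1) a (n + 1)
    have hb := asym_tmap (-1) b (n + 1)
    have h4 : asym (-1) B (n + 1 + 1) = ((n : ℚ) + 2)⁻¹ • (asym (-1) B (n + 1) ▷ B -
      (((n : ℚ) + 1) * (-1)) • ((asym (-1) B (n + 1) ▷ B) ≫ sw (tpow B n) B ≫
        (asym (-1) B (n + 1) ▷ B))) := rfl
    have e1 : (tmap a (n + 1) ⊗ₘ c) ≫ (asym (-1) B (n + 1) ▷ B) =
        (asym (-1) A (n + 1) ▷ Y) ≫ (tmap a (n + 1) ⊗ₘ c) := by
      rw [← tensorHom_id, ← tensorHom_id]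
      simp only [tensorHom_comp_tensorHom, Category.comp_id, Category.id_comp, ha]
    have e2 : (asym (-1) B (n + 1) ▷ B) ≫ (tmap b (n + 1) ⊗ₘ d) =
        (tmap b (n + 1) ⊗ₘ d) ≫ (asym (-1) A (n + 1) ▷ Y) := by
      rw [← tensorHom_id, ← tensorHom_id]
      simp only [tensorHom_comp_tensorHom, Category.comp_id, Category.id_comp, hb]
    have e3 : (tmap a (n + 1) ⊗ₘ c) ≫ (tmap b (n + 1) ⊗ₘ d) = 𝟙 _ := by
      rw [tensorHom_comp_tensorHom, tmap_comp, hab, hcd, tmap_id, id_tensorHom_id]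
    have e4 : (tmap a (n + 1) ⊗ₘ c) ≫ sw (tpow B n) B ≫ (tmap b (n + 1) ⊗ₘ d) = 0 := by
      have h5 : sw (tpow B n) B ≫ ((tmap b n ⊗ₘ b) ⊗ₘ d) =
          ((tmap b n ⊗ₘ d) ⊗ₘ b) ≫ swg (tpow A n) Y A :=
        swg_nat (tmap b n) d b
      change ((tmap a n ⊗ₘ a) ⊗ₘ c) ≫ sw (tpow B n) B ≫ ((tmap b n ⊗ₘ b) ⊗ₘ d) = 0
      rw [h5, tensorHom_comp_tensorHom_assoc, tensorHom_comp_tensorHom, had,
        MonoidalPreadditive.tensor_zero, MonoidalPreadditive.zero_tensor, zero_comp]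
    rw [h4, Linear.smul_comp, Linear.comp_smul, Preadditive.sub_comp, Preadditive.comp_sub,
      Linear.smul_comp, Linear.comp_smul]
    simp only [Category.assoc]
    rw [e2, reassoc_of% e1, reassoc_of% e3]
    have e5 : (tmap a (n + 1) ⊗ₘ c) ≫ sw (tpow B n) B ≫ (tmap b (n + 1) ⊗ₘ d) ≫
        (asym (-1) A (n + 1) ▷ Y) = 0 := by
      have := congrArg (· ≫ (asym (-1) A (n + 1) ▷ Y)) e4
      simpa only [Category.assoc, zero_comp] using this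
    rw [e5, comp_zero, smul_zero, sub_zero]
    congr 1
    push_cast
    ring

omit [Preadditive C] [Linear ℚ C] in
private lemma adj_triv (M : C) : ∀ (n i : ℕ), ¬ (i + 1 < n) → adj M n i = 𝟙 _
  | 0, _, _ => rfl
  | 1, _, _ => rfl
  | n + 2, i, h => by
    have h1 : ¬ i = n := by omega
    have h2 : adj M (n + 2) i = adj M (n + 1) i ▷ M := if_neg h1
    rw [h2, adj_triv M (n + 1) i (by omega), id_whiskerRight]

omit [Linear ℚ C] [MonoidalCategory C] [SymmetricCategory C] in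
private lemma zero_of_iso {A M N : C} (e : M ≅ N) (δ : A ⟶ M) (h : δ ≫ e.hom = 0) : δ = 0 := by
  rw [← Category.comp_id δ, ← e.hom_inv_id, ← Category.assoc, h, zero_comp]

end gen

section curves

variable {C : Type u} [Category.{v} C] [Preadditive C] [Linear ℚ C]
  [MonoidalCategory C] [SymmetricCategory C] [MonoidalPreadditive C] [MonoidalLinear ℚ C]
  [RigidCategory C] [HasBinaryBiproducts C] {F : Type w} [Field F] {W : MotivicHomology C F}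

private lemma exists_UV (G : Curves.{t} W) (X : G.Curve) : ∀ L : List G.Curve,
    ∃ (U : tens G.h L ⟶ tpow (G.jac X L) L.length) (V : tpow (G.jac X L) L.length ⟶ tens G.h L)
      (q : ℚ), q ≠ 0 ∧ U ≫ asym (-1) (G.jac X L) L.length ≫ V = q • 𝟙 _
  | [] => ⟨𝟙 _, 𝟙 _, 1, one_ne_zero, by
      change 𝟙 (𝟙_ C) ≫ 𝟙 (𝟙_ C) ≫ 𝟙 (𝟙_ C) = (1 : ℚ) • 𝟙 (𝟙_ C)
      simp⟩
  | Y :: L => by
    obtain ⟨U, V, q, hq, h⟩ := exists_UV G X L
    let B : C := G.jac X L ⊞ G.h Y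
    let a : G.jac X L ⟶ B := biprod.inl
    let b : B ⟶ G.jac X L := biprod.fst
    let c : G.h Y ⟶ B := biprod.inr
    let d : B ⟶ G.h Y := biprod.snd
    have hk := key_sym a b c d biprod.inl_fst biprod.inr_snd biprod.inl_snd L.length
    refine ⟨(U ▷ G.h Y) ≫ (tmap a L.length ⊗ₘ c), (tmap b L.length ⊗ₘ d) ≫ (V ▷ G.h Y),
      ((L.length : ℚ) + 1)⁻¹ * q, mul_ne_zero (inv_ne_zero (by positivity)) hq, ?_⟩
    change ((U ▷ G.h Y) ≫ (tmap a L.length ⊗ₘ c)) ≫ asym (-1) B (L.length + 1) ≫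
      (tmap b L.length ⊗ₘ d) ≫ (V ▷ G.h Y) = (((L.length : ℚ) + 1)⁻¹ * q) • 𝟙 (tens G.h L ⊗ G.h Y)
    have h1 : ((U ▷ G.h Y) ≫ (tmap a L.length ⊗ₘ c)) ≫ asym (-1) B (L.length + 1) ≫
        (tmap b L.length ⊗ₘ d) ≫ (V ▷ G.h Y) = (U ▷ G.h Y) ≫ ((tmap a L.length ⊗ₘ c) ≫
        asym (-1) B (L.length + 1) ≫ (tmap b L.length ⊗ₘ d)) ≫ (V ▷ G.h Y) := by
      simp only [Category.assoc]
    rw [h1, hk, Linear.smul_comp, Linear.comp_smul, ← comp_whiskerRight, ← comp_whiskerRight, h,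
      MonoidalLinear.smul_whiskerRight, id_whiskerRight, smul_smul]

private lemma van_jac (G : Curves.{t} W) (Z : Fam W) (l : ℤ) (N M : C) (X : G.Curve)
    (H : ∀ Y : G.Curve, ∀ γ ∈ Z.Z l (N ⊗ (G.h Y ⊗ M)), γ = 0) : ∀ (L : List G.Curve),
    ∀ γ ∈ Z.Z l (N ⊗ (G.jac X L ⊗ M)), γ = 0
  | [] => H X
  | Y :: L => by
    intro γ hγ
    let J : C := G.jac X L
    let i₁ : J ⟶ J ⊞ G.h Y := biprod.inl
    let p₁ : J ⊞ G.h Y ⟶ J := biprod.fst
    let i₂ : G.h Y ⟶ J ⊞ G.h Y := biprod.inr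
    let p₂ : J ⊞ G.h Y ⟶ G.h Y := biprod.snd
    have ht : p₁ ≫ i₁ + p₂ ≫ i₂ = 𝟙 (J ⊞ G.h Y) := biprod.total
    have h1 := van_jac G Z l N M X H L _ (Z.comp γ (N ◁ (p₁ ▷ M)) hγ)
    have h2 := H Y _ (Z.comp γ (N ◁ (p₂ ▷ M)) hγ)
    have h3 : N ◁ (p₁ ▷ M) ≫ N ◁ (i₁ ▷ M) + N ◁ (p₂ ▷ M) ≫ N ◁ (i₂ ▷ M) =
        𝟙 (N ⊗ ((J ⊞ G.h Y) ⊗ M)) := by
      rw [← MonoidalCategory.whiskerLeft_comp, ← MonoidalCategory.whiskerLeft_comp,
        ← comp_whiskerRight, ← comp_whiskerRight, ← MonoidalPreadditive.whiskerLeft_add,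
        ← MonoidalPreadditive.add_whiskerRight, ht, id_whiskerRight,
        MonoidalCategory.whiskerLeft_id]
    have key : ∀ δ : W.T l ⟶ N ⊗ ((J ⊞ G.h Y) ⊗ M), δ ≫ N ◁ (p₁ ▷ M) = 0 →
        δ ≫ N ◁ (p₂ ▷ M) = 0 → δ = 0 := by
      intro δ g1 g2
      have h4 : δ ≫ (N ◁ (p₁ ▷ M) ≫ N ◁ (i₁ ▷ M) + N ◁ (p₂ ▷ M) ≫ N ◁ (i₂ ▷ M)) = δ := by
        rw [h3, Category.comp_id]
      rw [Preadditive.comp_add, ← Category.assoc, ← Category.assoc, g1, g2, zero_comp, zero_comp,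
        add_zero] at h4
      exact h4.symm
    exact key γ h1 h2

private lemma van_tpow (G : Curves.{t} W) (Z : Fam W) (l : ℤ) (X : G.Curve) (L : List G.Curve) :
    ∀ (k : ℕ) (M : C), (∀ L' : List G.Curve, L'.length = k →
      ∀ α ∈ Z.Z l (tens G.h L' ⊗ M), α = 0) → ∀ α ∈ Z.Z l (tpow (G.jac X L) k ⊗ M), α = 0
  | 0, M, H => H [] rfl
  | k + 1, M, H => by
    intro α hα
    have h1 : ∀ γ ∈ Z.Z l (tpow (G.jac X L) k ⊗ (G.jac X L ⊗ M)), γ = 0 := by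
      refine van_tpow G Z l X L k (G.jac X L ⊗ M) fun L' hL' => ?_
      refine van_jac G Z l (tens G.h L') M X (fun Y γ hγ => ?_) L
      have h2 := H (Y :: L') (by simp [hL']) _
        (Z.comp γ (α_ (tens G.h L') (G.h Y) M).inv hγ)
      exact zero_of_iso (α_ (tens G.h L') (G.h Y) M).symm γ h2
    have h2 := h1 _ (Z.comp α (α_ (tpow (G.jac X L) k) (G.jac X L) M).hom hα)
    exact zero_of_iso (α_ (tpow (G.jac X L) k) (G.jac X L) M) α h2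

end curves

variable {C : Type u} [Category.{v} C] [Preadditive C] [Linear ℚ C]
  [MonoidalCategory C] [SymmetricCategory C] [MonoidalPreadditive C] [MonoidalLinear ℚ C]
  [RigidCategory C] [HasBinaryBiproducts C] {F : Type w} [Field F] {W : MotivicHomology C F}

theorem sym_iff (G : Curves.{t} W) (Z : Fam W) (l : ℤ) (k : ℕ) :
    (∀ (X : G.Curve) (L : List G.Curve), ∀ α ∈ Z.Z l (tpow (G.jac X L) k),
      (∀ i, α ≫ adj (G.jac X L) k i = α) → α = 0) ↔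
    ∀ L : List G.Curve, L.length = k → ∀ α ∈ Z.Z l (tens G.h L), α = 0 := by
  constructor
  · rintro H L rfl α hα
    obtain ⟨X, -⟩ := G.genus
    obtain ⟨U, V, q, hq, h⟩ := exists_UV G X L
    have hp := asym_props (ε := -1) (by norm_num) (G.jac X L) L.length
    have h1 := H X L (α ≫ (U ≫ asym (-1) (G.jac X L) L.length)) (Z.comp α _ hα) (by
      intro i
      by_cases hi : i + 1 < L.length
      · have h2 := hp.2.2 i hi
        rw [neg_smul, one_smul, neg_neg] at h2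
        rw [Category.assoc, Category.assoc, h2]
      · rw [adj_triv _ _ _ hi, Category.comp_id])
    have h2 := congrArg (· ≫ V) h1
    simp only [Category.assoc, zero_comp] at h2
    rw [h, Linear.comp_smul, Category.comp_id] at h2
    exact (smul_eq_zero.1 h2).resolve_left hq
  · intro H X L α hα _
    have h1 := van_tpow G Z l X L k (𝟙_ C) (by
      intro L' hL' γ hγ
      have h2 := H L' hL' _ (Z.comp γ (ρ_ (tens G.h L')).hom hγ)
      exact zero_of_iso (ρ_ (tens G.h L')) γ h2) _ (Z.comp α (ρ_ (tpow (G.jac X L) k)).inv hα)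
    exact zero_of_iso (ρ_ (tpow (G.jac X L) k)).symm α h1

end Pool.Agent.AbAlg
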