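import Pool.Agent.AbAlg.Ind
import Pool.Agent.AbAlg.Symm
import Pool.Agent.AbAlg.Std
import Pool.Agent.AbAlg.PC

/-!
# The equivalences for fixed `n`
-/

set_option autoImplicit false
set_option linter.unusedSectionVars false

open CategoryTheory MonoidalCategory Limits
open Pool.Agent.Helper15.Murre Pool.Agent.Helper15.ABC Pool.Agent.Helper88.MADR

universe t w v u

namespace Pool.Agent.AbAlg

variable {C : Type u} [Category.{v} C] [Preadditive C] [Linear ℚ C]
  [MonoidalCategory C] [SymmetricCategory C] [MonoidalPreadditive C] [MonoidalLinear ℚ C]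
  [RigidCategory C] [HasBinaryBiproducts C] [IsIdempotentComplete C] {F : Type w} [Field F]
  {W : MotivicHomology C F}

/-- products of curves have Chow-Kuenneth decompositions -/
theorem murreA_prod (G : Curves.{t} W) (L : List G.Curve) : MurreA W (G.prod L) := by
  induction L with
  | nil => exact ⟨CK.single (𝟙_ C) 0 W.unit_mem⟩
  | cons X L ih =>
    obtain ⟨D⟩ := ih
    have h1 : ∀ x : W.H.obj (G.h X), x ∈ W.gr (G.h X) 1 := fun x => by rw [G.odd]; trivial
    exact ⟨D.tensor (((CK.single (𝟙_ C) 0 W.unit_mem).biprod (CK.single (G.h X) 1 h1)).biprod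
      (CK.tate W 1))⟩

/-- (B) for products of at most `2n + 2` curves, and algebraically trivial cycles -/
theorem level (G : Curves.{t} W) (n : ℕ) :
    [∀ L : List G.Curve, L.length ≤ 2 * n + 2 → ∀ D : CK W (G.prod L), D.MurreB,
      ∀ L : List G.Curve, L.length = 2 * n + 1 → ∀ α : W.CH (n + 1) (tens G.h L), α = 0,
      ∀ L : List G.Curve, L.length = 2 * n → ∀ α ∈ G.Alg n (tens G.h L), α = 0,
      ∀ (X : G.Curve) (L : List G.Curve), ∀ α : W.CH (n + 1) (tpow (G.jac X L) (2 * n + 1)),
        (∀ i, α ≫ adj (G.jac X L) (2 * n + 1) i = α) → α = 0,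
      ∀ (X : G.Curve) (L : List G.Curve), ∀ α ∈ G.Alg n (tpow (G.jac X L) (2 * n)),
        (∀ i, α ≫ adj (G.jac X L) (2 * n) i = α) → α = 0].TFAE := by
  tfae_have 1 → 2 := by
    intro h L hL α
    obtain ⟨R⟩ := tens_retract G L
    obtain ⟨D⟩ := murreA_prod G L
    have h1 := weakNil_of_kimura (G.kimura L) D (h L (by omega) D)
    exact van_of_weakNil R _ (tens_pure G L) h1 _ (by rw [hL]; push_cast; omega) α
  tfae_have 2 → 3 := by
    intro h L hL
    exact alg_van G _ _ (fun X α => h (X :: L) (by simp [hL]) α)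
  tfae_have 3 → 1 := by
    intro h L hL D
    have h1 := core G n (fun m hm L hL => down_le G (algFam G) n h m hm L hL)
    obtain ⟨D', hD', -⟩ := std_CK G L False
      (fun L' hL' l hl α => h1 L' (by omega) l hl α) (fun h => h.elim)
    exact murreB_all_of_kimura (G.kimura L) D' hD' D
  tfae_have 2 ↔ 4 := by
    have h1 := sym_iff G (topFam W) (n + 1) (2 * n + 1)
    constructor
    · intro h X L α hα
      exact h1.2 (fun L hL α _ => h L hL α) X L α trivial hα
    · intro h L hL α
      exact h1.1 (fun X L α _ hα => h X L α hα) L hL α trivial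
  tfae_have 3 ↔ 5 := (sym_iff G (algFam G) n (2 * n)).symm
  tfae_finish

/-- (B) and (D) for products of curves -/
theorem levelD (G : Curves.{t} W) (n : ℕ) :
    [(∀ L : List G.Curve, L.length ≤ 2 * n + 2 → ∀ D : CK W (G.prod L), D.MurreB) ∧
        ∀ L : List G.Curve, L.length ≤ 2 * n + 1 → ∀ D : CK W (G.prod L), D.MurreD,
      ∀ L : List G.Curve, L.length = 2 * n → ∀ α ∈ W.CHhom n (tens G.h L), α = 0,
      ∀ (X : G.Curve) (L : List G.Curve), ∀ α ∈ W.CHhom n (tpow (G.jac X L) (2 * n)),
        (∀ i, α ≫ adj (G.jac X L) (2 * n) i = α) → α = 0].TFAE := by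
  tfae_have 1 → 2 := by
    intro h L hL α hα
    obtain ⟨R⟩ := tens_retract G L
    obtain ⟨D⟩ := murreA_prod G L
    have h1 := strongNil_of_kimura (G.kimura L) D (h.1 L (by omega) D) (h.2 L (by omega) D)
    exact van_of_strongNil R _ (tens_pure G L) h1 _ (by rw [hL]; push_cast; omega) α hα
  tfae_have 2 → 1 := by
    intro h
    have h0 := ((level G n).out 2 0).1 (fun L hL α hα => h L hL α (alg_hom G α hα))
    refine ⟨h0, fun L hL D => ?_⟩
    have h1 := core G n (fun m hm L hL => down_le G (algFam G) n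
      (fun L hL α hα => h L hL α (alg_hom G α hα)) m hm L hL)
    obtain ⟨D', hB, hD⟩ := std_CK G L True
      (fun L' hL' l hl α => h1 L' (by omega) l hl α)
      (fun _ L' m hm hL' => down_le G (homFam W) n h m (by omega) L' hm)
    exact (StrongNil.murreBD (strongNil_of_kimura (G.kimura L) D' hB (hD trivial)) D).2
  tfae_have 2 ↔ 3 := (sym_iff G (homFam W) n (2 * n)).symm
  tfae_finish

end Pool.Agent.AbAlg
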