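import Pool.Agent.AbAlg.Level

/-!
# Cycles of small dimension or codimension on products of arbitrarily many curves
-/

set_option autoImplicit false
set_option linter.unusedSectionVars false

open CategoryTheory MonoidalCategory Limits
open Pool.Agent.Helper15.Murre Pool.Agent.Helper15.ABC Pool.Agent.Helper88.MADR
open Pool.Agent.Helper58.MAD

universe t w v u

namespace Pool.Agent.AbAlg

variable {C : Type u} [Category.{v} C] [Preadditive C] [Linear ℚ C]
  [MonoidalCategory C] [SymmetricCategory C] [MonoidalPreadditive C] [MonoidalLinear ℚ C]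
  [RigidCategory C] [HasBinaryBiproducts C] {F : Type w} [Field F] {W : MotivicHomology C F}

/-- The induction, for cycles of dimension `≤ n + 1` or codimension `≤ n`. -/
theorem coreR (G : Curves.{t} W) (n : ℕ)
    (h : ∀ m : ℕ, m ≤ n → ∀ L : List G.Curve, L.length = 2 * m →
      ∀ α ∈ G.Alg (m : ℤ) (tens G.h L), α = 0)
    (L : List G.Curve) (l : ℤ) (hr : l ≤ n + 1 ∨ (L.length : ℤ) ≤ l + n)
    (hl : (L.length : ℤ) < 2 * l) (α : W.CH l (tens G.h L)) : α = 0 := by
  induction L generalizing l with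
  | nil =>
    exact G.point l (by simp at hl; omega) α
  | cons X L ih =>
    rw [List.length_cons] at hr hl
    push_cast at hr hl
    refine van_generic G X (tens G.h L) l (fun α ξ => ?_)
      (fun β => ih l (by omega) (by omega) β) α
    have h1 := alg_restrict G X (tens G.h L) l α ξ
    refine (algFam G).van_twist (n := 1) (fun β hβ => ?_) _ h1
    by_cases h2 : (L.length : ℤ) < 2 * (l - 1)
    · exact ih (l - 1) (by omega) h2 β
    · obtain ⟨m, hm⟩ : ∃ m : ℕ, (m : ℤ) = l - 1 := ⟨(l - 1).toNat, by omega⟩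
      have h3 : L.length = 2 * m := by omega
      have h4 := h m (by omega) L h3
      have key : ∀ k : ℤ, k = (m : ℤ) → ∀ γ ∈ G.Alg k (tens G.h L), γ = 0 := by
        rintro _ rfl γ hγ
        exact h4 γ hγ
      exact key (l - 1) hm.symm β hβ

/-- finite direct sums of twists `h₁(X₁) ⊗ ⋯ ⊗ h₁(X_s)(m)` with `m ≥ 0`, `s + m ≤ r` -/
private inductive RObj (G : Curves.{t} W) : ℤ → C → Prop
  | base (L : List G.Curve) (m r : ℤ) (h0 : 0 ≤ m) (h : (L.length : ℤ) + m ≤ r) :
      RObj G r (tens G.h L ⊗ W.T m)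
  | sum {r : ℤ} {M N : C} : RObj G r M → RObj G r N → RObj G r (M ⊞ N)
  | iso {r : ℤ} {M N : C} (e : M ≅ N) : RObj G r M → RObj G r N

private theorem robj_mono {G : Curves.{t} W} {r s : ℤ} (hrs : r ≤ s) {M : C} (h : RObj G r M) :
    RObj G s M := by
  induction h with
  | base L m r h0 h => exact RObj.base L m s h0 (h.trans hrs)
  | sum _ _ h1 h2 => exact RObj.sum (h1 hrs) (h2 hrs)
  | iso e _ h1 => exact RObj.iso e (h1 hrs)

/-- distributivity -/
private noncomputable def rLeft (M A B : C) : M ⊗ (A ⊞ B) ≅ (M ⊗ A) ⊞ (M ⊗ B) where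
  hom := biprod.lift (M ◁ biprod.fst) (M ◁ biprod.snd)
  inv := biprod.desc (M ◁ biprod.inl) (M ◁ biprod.inr)
  hom_inv_id := by
    rw [biprod.lift_desc, ← MonoidalCategory.whiskerLeft_comp,
      ← MonoidalCategory.whiskerLeft_comp, ← MonoidalPreadditive.whiskerLeft_add, biprod.total,
      MonoidalCategory.whiskerLeft_id]
  inv_hom_id := by
    apply biprod.hom_ext' <;> apply biprod.hom_ext <;>
      simp [← MonoidalCategory.whiskerLeft_comp]

/-- distributivity -/
private noncomputable def rRight (A B M : C) : (A ⊞ B) ⊗ M ≅ (A ⊗ M) ⊞ (B ⊗ M) where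
  hom := biprod.lift (biprod.fst ▷ M) (biprod.snd ▷ M)
  inv := biprod.desc (biprod.inl ▷ M) (biprod.inr ▷ M)
  hom_inv_id := by
    rw [biprod.lift_desc, ← MonoidalCategory.comp_whiskerRight,
      ← MonoidalCategory.comp_whiskerRight, ← MonoidalPreadditive.add_whiskerRight, biprod.total,
      MonoidalCategory.id_whiskerRight]
  inv_hom_id := by
    apply biprod.hom_ext' <;> apply biprod.hom_ext <;>
      simp [← MonoidalCategory.comp_whiskerRight]

private theorem robj_curve {G : Curves.{t} W} {r : ℤ} {M : C} (h : RObj G r M) (X : G.Curve) :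
    RObj G (r + 1) (M ⊗ G.h X) := by
  induction h with
  | base L m r h0 h =>
    refine RObj.iso ?_ (RObj.base (X :: L) m (r + 1) h0 (by
      rw [List.length_cons]; push_cast; omega))
    exact (α_ (tens G.h L) (G.h X) (W.T m)) ≪≫ whiskerLeftIso _ (β_ (G.h X) (W.T m)) ≪≫
      (α_ (tens G.h L) (W.T m) (G.h X)).symm
  | sum _ _ h1 h2 => exact RObj.iso (rRight _ _ _).symm (RObj.sum h1 h2)
  | iso e _ h1 => exact RObj.iso (whiskerRightIso e (G.h X)) h1

private theorem robj_twist {G : Curves.{t} W} {r : ℤ} {M : C} (h : RObj G r M) :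
    RObj G (r + 1) (M ⊗ W.T 1) := by
  induction h with
  | base L m r h0 h =>
    refine RObj.iso ?_ (RObj.base L (m + 1) (r + 1) (by omega) (by omega))
    exact whiskerLeftIso _ (W.tateAdd m 1) ≪≫ (α_ (tens G.h L) (W.T m) (W.T 1)).symm
  | sum _ _ h1 h2 => exact RObj.iso (rRight _ _ _).symm (RObj.sum h1 h2)
  | iso e _ h1 => exact RObj.iso (whiskerRightIso e (W.T 1)) h1

private theorem robj_prod (G : Curves.{t} W) (L : List G.Curve) :
    RObj G (L.length : ℤ) (G.prod L) := by
  induction L with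
  | nil =>
    refine RObj.iso ?_ (RObj.base ([] : List G.Curve) 0 _ le_rfl (by simp))
    exact whiskerLeftIso (𝟙_ C) W.tateZero ≪≫ ρ_ (𝟙_ C)
  | cons X L ih =>
    have h0 : ((X :: L).length : ℤ) = (L.length : ℤ) + 1 := by simp
    rw [h0]
    have h1 : RObj G ((L.length : ℤ) + 1) (G.prod L ⊗ 𝟙_ C) :=
      RObj.iso (ρ_ _).symm (robj_mono (by omega) ih)
    have h4 : RObj G ((L.length : ℤ) + 1) (G.prod L ⊗ (𝟙_ C ⊞ G.h X)) :=
      RObj.iso (rLeft _ _ _).symm (RObj.sum h1 (robj_curve ih X))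
    exact RObj.iso (rLeft _ _ _).symm (RObj.sum h4 (robj_twist ih))

/-- the properties (B) for `l ∈ S` and (D) for `l ∈ S'` -/
private def Has (M : C) (S S' : ℤ → Prop) : Prop :=
  ∃ D : CK W M, (∀ l, S l → ∀ i, i < 2 * l → ∀ α : W.CH l M, α ≫ D.p i = 0) ∧
    ∀ l, S' l → ∀ α : W.CH l M, W.H.map α = 0 → α ≫ D.p (2 * l) = 0

private theorem r_single_p (N : C) (i j : ℤ) (h : ∀ x : W.H.obj N, x ∈ W.gr N i) :
    (CK.single N i h).p j = if j = i then 𝟙 N else 0 := rfl

private theorem has_base (G : Curves.{t} W) (S S' : ℤ → Prop) (L : List G.Curve) (m : ℤ)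
    (hB : ∀ l, S l → (L.length : ℤ) + 2 * m < 2 * l → ∀ α : W.CH (l - m) (tens G.h L), α = 0)
    (hD : ∀ l, S' l → (L.length : ℤ) + 2 * m = 2 * l →
      ∀ α ∈ W.CHhom (l - m) (tens G.h L), α = 0) :
    Has (W := W) (tens G.h L ⊗ W.T m) S S' := by
  have hp : ∀ x : W.H.obj (tens G.h L ⊗ W.T m),
      x ∈ W.gr (tens G.h L ⊗ W.T m) ((L.length : ℤ) + 2 * m) := by
    intro x
    have := W.tensor_range (𝟙 (tens G.h L)) (𝟙 (W.T m)) (L.length : ℤ) (2 * m)
      (fun x => by rw [tens_pure]; trivial) (fun x => W.map_gr _ _ _ (W.mem_gr_tate _ x)) x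
    rwa [MonoidalCategory.id_tensorHom_id, W.map_id_apply] at this
  refine ⟨CK.single _ _ hp, ?_, ?_⟩
  · intro l hS i hi α
    rw [r_single_p]
    split_ifs with h1
    · subst h1
      have h2 : α = 0 := (topFam W).van_twist (fun β _ => hB l hS hi β) α trivial
      rw [h2, zero_comp]
    · rw [comp_zero]
  · intro l hS α hα
    rw [r_single_p]
    split_ifs with h1
    · have h2 : α = 0 := (homFam W).van_twist (fun β hβ => hD l hS h1.symm β hβ) α hα
      rw [h2, zero_comp]
    · rw [comp_zero]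

private theorem has_biprod {M N : C} (S S' : ℤ → Prop) (h : Has (W := W) M S S')
    (h' : Has (W := W) N S S') : Has (W := W) (M ⊞ N) S S' := by
  obtain ⟨D, hD1, hD2⟩ := h
  obtain ⟨E, hE1, hE2⟩ := h'
  refine ⟨D.biprod E, ?_, ?_⟩
  · intro l hS i hi α
    rw [CK.biprod_p]
    apply biprod.hom_ext
    · have := hD1 l hS i hi (α ≫ biprod.fst)
      simpa using this
    · have := hE1 l hS i hi (α ≫ biprod.snd)
      simpa using this
  · intro l hS α hα
    rw [CK.biprod_p]
    apply biprod.hom_ext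
    · have := hD2 l hS (α ≫ biprod.fst) (by rw [Functor.map_comp, hα, zero_comp])
      simpa using this
    · have := hE2 l hS (α ≫ biprod.snd) (by rw [Functor.map_comp, hα, zero_comp])
      simpa using this

private theorem has_iso {M N : C} (e : M ≅ N) (S S' : ℤ → Prop) (h : Has (W := W) M S S') :
    Has (W := W) N S S' := by
  obtain ⟨D, hD1, hD2⟩ := h
  refine ⟨CK.ofIso e D, ?_, ?_⟩
  · intro l hS i hi α
    have h1 := hD1 l hS i hi (α ≫ e.inv)
    change α ≫ e.inv ≫ D.p i ≫ e.hom = 0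
    rw [Category.assoc] at h1
    rw [reassoc_of% h1, zero_comp]
  · intro l hS α hα
    have h1 := hD2 l hS (α ≫ e.inv) (by rw [Functor.map_comp, hα, zero_comp])
    change α ≫ e.inv ≫ D.p (2 * l) ≫ e.hom = 0
    rw [Category.assoc] at h1
    rw [reassoc_of% h1, zero_comp]

/-- the standard decomposition of a product of curves -/
private theorem has_prod (G : Curves.{t} W) (S S' : ℤ → ℤ → Prop)
    (hB : ∀ (L : List G.Curve) (m r l : ℤ), 0 ≤ m → (L.length : ℤ) + m ≤ r → S r l →
      (L.length : ℤ) + 2 * m < 2 * l → ∀ α : W.CH (l - m) (tens G.h L), α = 0)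
    (hD : ∀ (L : List G.Curve) (m r l : ℤ), 0 ≤ m → (L.length : ℤ) + m ≤ r → S' r l →
      (L.length : ℤ) + 2 * m = 2 * l → ∀ α ∈ W.CHhom (l - m) (tens G.h L), α = 0)
    (L : List G.Curve) : Has (W := W) (G.prod L) (S L.length) (S' L.length) := by
  have key : ∀ (r : ℤ) (M : C), RObj G r M → Has (W := W) M (S r) (S' r) := by
    intro r M hM
    induction hM with
    | base L' m r h0 h =>
      exact has_base G (S r) (S' r) L' m (fun l => hB L' m r l h0 h) (fun l => hD L' m r l h0 h)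
    | sum _ _ h1 h2 => exact has_biprod _ _ h1 h2
    | iso e _ h1 => exact has_iso e _ _ h1
  exact key _ _ (robj_prod G L)

section kimura

variable [IsIdempotentComplete C]

/-- a class fixed by an endomorphism which is zero on `H_j`, `j ≥ r`, is zero, if its components in
the weights `< r` are zero -/
theorem fixed_zero {M : C} (hM : KimuraFinite M) (D : CK W M) (r l : ℤ) (γ : W.CH l M)
    (hγ : ∀ j, j < r → γ ≫ D.p j = 0) (f : M ⟶ M)
    (hf : ∀ j, r ≤ j → ∀ x ∈ W.gr M j, (W.H.map f).hom x = 0) (hfix : γ ≫ f = γ) : γ = 0 := by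
  obtain ⟨m, hm⟩ := nil_of_kimura (W := W) hM (CK.above D r ≫ f) (above_homology D r f hf)
  have h1 : γ ≫ CK.above D r ≫ f = γ := by
    rw [← Category.assoc, comp_above D r l γ hγ, hfix]
  have h2 : ∀ k : ℕ, γ ≫ pw (CK.above D r ≫ f) k = γ := by
    intro k
    induction k with
    | zero => exact Category.comp_id _
    | succ k ih =>
      change γ ≫ pw (CK.above D r ≫ f) k ≫ (CK.above D r ≫ f) = γ
      rw [← Category.assoc, ih, h1]
  rw [← h2 m, hm, comp_zero]

/-- (B) for a summand -/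
theorem summandB {M N : C} (hM : KimuraFinite M) (D : CK W M) (l : ℤ)
    (hD : ∀ i, i < 2 * l → ∀ α : W.CH l M, α ≫ D.p i = 0) (R : Retract N M) (E : CK W N)
    (i : ℤ) (hi : i < 2 * l) (α : W.CH l N) : α ≫ E.p i = 0 := by
  have h1 : (α ≫ E.p i) ≫ R.i = 0 := by
    refine fixed_zero hM D (2 * l) l _ (fun j hj => hD j hj _) (R.r ≫ E.p i ≫ R.i)
      (fun j hj x hx => ?_) ?_
    · rw [W.map_comp_apply, W.map_comp_apply, E.homology i j _ (W.map_gr R.r _ _ hx),
        if_neg (by omega), map_zero]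
    · have h2 := R.retract
      have h3 := E.idem i
      simp only [Category.assoc]
      rw [reassoc_of% h2, reassoc_of% h3]
  have h4 := congrArg (· ≫ R.r) h1
  simpa using h4

/-- (D) for a summand -/
theorem summandD {M N : C} (hM : KimuraFinite M) (D : CK W M) (l : ℤ)
    (hD : ∀ i, i < 2 * l → ∀ α : W.CH l M, α ≫ D.p i = 0)
    (hD' : ∀ α : W.CH l M, W.H.map α = 0 → α ≫ D.p (2 * l) = 0) (R : Retract N M) (E : CK W N)
    (α : W.CH l N) (hα : W.H.map α = 0) : α ≫ E.p (2 * l) = 0 := by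
  have h1 : (α ≫ E.p (2 * l)) ≫ R.i = 0 := by
    refine fixed_zero hM D (2 * l + 1) l _ (fun j hj => ?_) (R.r ≫ E.p (2 * l) ≫ R.i)
      (fun j hj x hx => ?_) ?_
    · rcases lt_or_eq_of_le (show j ≤ 2 * l by omega) with h1 | rfl
      · exact hD j h1 _
      · exact hD' _ (by rw [Functor.map_comp, Functor.map_comp, hα, zero_comp, zero_comp])
    · rw [W.map_comp_apply, W.map_comp_apply, E.homology _ j _ (W.map_gr R.r _ _ hx),
        if_neg (by omega), map_zero]
    · have h2 := R.retract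
      have h3 := E.idem (2 * l)
      simp only [Category.assoc]
      rw [reassoc_of% h2, reassoc_of% h3]
  have h4 := congrArg (· ≫ R.r) h1
  simpa using h4

end kimura

/-- `CH_l(M_i) = 0` -/
theorem ch_eq_bot_iff {M : C} (D : CK W M) (l i : ℤ) :
    D.CH l i = ⊥ ↔ ∀ α : W.CH l M, α ≫ D.p i = 0 := by
  unfold CK.CH
  rw [LinearMap.range_eq_bot]
  constructor
  · intro h α
    exact congrArg (fun f => f α) h
  · intro h
    ext α
    exact h α

/-- `CH_l(M_{2l})_hom = 0` -/
theorem ch_inf_eq_bot {M : C} (D : CK W M) (l i : ℤ)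
    (h : ∀ α : W.CH l M, W.H.map α = 0 → α ≫ D.p i = 0) : D.CH l i ⊓ W.CHhom l M = ⊥ := by
  rw [eq_bot_iff]
  rintro α ⟨⟨β, hβ⟩, hα⟩
  have h1 : β ≫ D.p i = α := hβ
  have h2 : α ≫ D.p i = α := by rw [← h1, Category.assoc, D.idem]
  have h3 := h α hα
  rw [h2] at h3
  simp [h3]

theorem ch_inf_zero {M : C} (D : CK W M) (l i : ℤ) (h : D.CH l i ⊓ W.CHhom l M = ⊥)
    (α : W.CH l M) (hα : W.H.map α = 0) : α ≫ D.p i = 0 := by
  have h1 : α ≫ D.p i ∈ D.CH l i ⊓ W.CHhom l M := by
    refine ⟨⟨α, rfl⟩, ?_⟩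
    change W.H.map (α ≫ D.p i) = 0
    rw [Functor.map_comp, hα, zero_comp]
  rw [h] at h1
  simpa using h1

variable [IsIdempotentComplete C]

/-- (B) for cycles of dimension `≤ n + 1` or codimension `≤ n`, and algebraically trivial cycles
of dimension `n` on products of `2n` curves -/
theorem levelR (G : Curves.{t} W) (n : ℕ) :
    [G.RangeB n, G.TensZero (all W) (n + 1) (2 * n + 1), G.TensZero G.Alg n (2 * n),
      G.SymZero (all W) (n + 1) (2 * n + 1), G.SymZero G.Alg n (2 * n)].TFAE := by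
  have hl := level G n
  have h12 : G.TensZero (all W) (n + 1) (2 * n + 1) ↔
      ∀ L : List G.Curve, L.length = 2 * n + 1 → ∀ α : W.CH (n + 1) (tens G.h L), α = 0 :=
    ⟨fun h L hL α => h L hL α trivial, fun h L hL α _ => h L hL α⟩
  have h14 : G.SymZero (all W) (n + 1) (2 * n + 1) ↔
      ∀ (X : G.Curve) (L : List G.Curve), ∀ α : W.CH (n + 1) (tpow (G.jac X L) (2 * n + 1)),
        (∀ i, α ≫ adj (G.jac X L) (2 * n + 1) i = α) → α = 0 :=
    ⟨fun h X L α hα => h X L α trivial hα, fun h X L α _ hα => h X L α hα⟩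
  tfae_have 1 → 2 := by
    intro h L hL α _
    have h0 : ∀ x : W.H.obj (tens G.h L), x ∈ W.gr (tens G.h L) (L.length : ℤ) := fun x => by
      rw [tens_pure]; trivial
    have h1 := h L _ (tens_retract G L) (CK.single _ _ h0) (n + 1) (Or.inl le_rfl) L.length
      (by rw [hL]; push_cast; omega)
    have h2 := (ch_eq_bot_iff _ _ _).1 h1 α
    rwa [CK.single_p, Category.comp_id] at h2
  tfae_have 3 → 1 := by
    intro h L N hN E l hl i hi
    obtain ⟨R⟩ := hN
    rw [ch_eq_bot_iff]
    have h1 := coreR G n (fun m hm L hL => down_le G (algFam G) n h m hm L hL)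
    obtain ⟨D, hD, -⟩ := has_prod G (fun r l => l ≤ n + 1 ∨ r ≤ l + n) (fun _ _ => False)
      (fun L m r l h0 h hS hw => h1 L (l - m) (by omega) (by omega)) (fun _ _ _ _ _ _ h => h.elim) L
    exact summandB (G.kimura L) D l (hD l hl) R E i hi
  tfae_have 2 ↔ 3 := h12.trans (hl.out 1 2)
  tfae_have 2 ↔ 4 := (h12.trans (hl.out 1 3)).trans h14.symm
  tfae_have 3 ↔ 5 := hl.out 2 4
  tfae_finish

/-- (B) and (D) for cycles of small dimension or codimension -/
theorem levelDR (G : Curves.{t} W) (n : ℕ) :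
    [G.RangeB n ∧ G.RangeD n, G.TensZero W.CHhom n (2 * n), G.SymZero W.CHhom n (2 * n)].TFAE := by
  have hl := levelD G n
  tfae_have 1 → 2 := by
    rintro ⟨_, h⟩ L hL α hα
    have h0 : ∀ x : W.H.obj (tens G.h L), x ∈ W.gr (tens G.h L) (2 * (n : ℤ)) := fun x => by
      have h3 : (2 * (n : ℤ)) = (L.length : ℤ) := by rw [hL]; push_cast; ring
      rw [h3, tens_pure]; trivial
    have h1 := h L _ (tens_retract G L) (CK.single _ _ h0) n (Or.inl le_rfl)
    have h2 := ch_inf_zero _ _ _ h1 α hα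
    rwa [CK.single_p, Category.comp_id] at h2
  tfae_have 2 → 1 := by
    intro h
    have h1 := coreR G n (fun m hm L hL => down_le G (algFam G) n
      (fun L hL α hα => h L hL α (alg_hom G α hα)) m hm L hL)
    have h2 := fun m hm => down_le G (homFam W) n h m hm
    have h3 := has_prod G (fun r l => l ≤ n + 1 ∨ r ≤ l + n)
      (fun r l => l ≤ n ∨ r ≤ l + n)
      (fun L m r l h0 h hS hw => h1 L (l - m) (by omega) (by omega))
      (fun L m r l h0 h hS hw => by
        have key : ∀ (k : ℤ), k = ((l - m).toNat : ℤ) → ∀ γ ∈ W.CHhom k (tens G.h L), γ = 0 := by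
          rintro _ rfl γ hγ
          exact h2 (l - m).toNat (by omega) L (by omega) γ hγ
        exact key (l - m) (by omega))
    refine ⟨fun L N hN E l hl i hi => ?_, fun L N hN E l hl => ?_⟩
    · obtain ⟨D, hD, hD'⟩ := h3 L
      obtain ⟨R⟩ := hN
      rw [ch_eq_bot_iff]
      exact summandB (G.kimura L) D l (hD l hl) R E i hi
    · obtain ⟨D, hD, hD'⟩ := h3 L
      obtain ⟨R⟩ := hN
      refine ch_inf_eq_bot E l _ (fun α hα => ?_)
      exact summandD (G.kimura L) D l (hD l (by omega)) (hD' l hl) R E α hα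
  tfae_have 2 ↔ 3 := hl.out 1 2
  tfae_finish

end Pool.Agent.AbAlg
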